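import Mathlib

set_option autoImplicit false

/-!
Five words over an alphabet `A`, every letter occurring `m` times in each word; `pos s a c` is the
position of the `c`-th copy of the letter `a` in the word `s`; `F s t a c c'` is a label of the pair
(copy `c` in word `s`, copy `c'` in word `t`) which strictly increases along common subsequences.
-/

namespace Pool.Agent.Helper8.BT

structure WSys (A : Type) (m L P : ℕ) (pos : Fin 5 → A → ℕ → ℕ)
    (F : Fin 5 → Fin 5 → A → ℕ → ℕ → ℕ) : Prop where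
  mono : ∀ s a c d, c < d → d < m → pos s a c < pos s a d
  inj : ∀ s a b c d, c < m → d < m → pos s a c = pos s b d → a = b ∧ c = d
  lt : ∀ s a c, c < m → pos s a c < P
  Flt : ∀ s t a c c', s ≠ t → c < m → c' < m → F s t a c c' < L
  symm : ∀ s t a c c', s ≠ t → F s t a c c' = F t s a c' c
  inc : ∀ s t a b c c' d d', s ≠ t → c < m → c' < m → d < m → d' < m →
    pos s a c < pos s b d → pos t a c' < pos t b d' → F s t a c c' < F s t b d d'
  Fmono : ∀ s t a c d c', s ≠ t → c ≤ d → d < m → c' < m → F s t a c c' ≤ F s t a d c'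

section basics
variable {A : Type} {m L P : ℕ} {pos : Fin 5 → A → ℕ → ℕ} {F : Fin 5 → Fin 5 → A → ℕ → ℕ → ℕ}

theorem WSys.Fmono' (h : WSys A m L P pos F) {s t : Fin 5} {a : A} {c c' d' : ℕ} (hst : s ≠ t)
    (hd : c' ≤ d') (hdm : d' < m) (hc : c < m) : F s t a c c' ≤ F s t a c d' := by
  rw [h.symm s t a c c' hst, h.symm s t a c d' hst]
  exact h.Fmono t s a c' d' c hst.symm hd hdm hc

theorem WSys.inc_same (h : WSys A m L P pos F) {s t : Fin 5} {a : A} {c c' d d' : ℕ} (hst : s ≠ t)
    (h1 : c < d) (h2 : c' < d') (hdm : d < m) (hdm' : d' < m) : F s t a c c' < F s t a d d' :=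
  h.inc s t a a c c' d d' hst (by omega) (by omega) hdm hdm' (h.mono s a c d h1 hdm)
    (h.mono t a c' d' h2 hdm')

theorem WSys.inc_many (h : WSys A m L P pos F) {s t : Fin 5} {a : A} {c c' : ℕ} (hst : s ≠ t) (r : ℕ)
    (h1 : c + r < m) (h2 : c' + r < m) : F s t a c c' + r ≤ F s t a (c + r) (c' + r) := by
  induction r with
  | zero => simp
  | succ r ih =>
    have := ih (by omega) (by omega)
    have h3 := h.inc_same (a := a) hst (show c + r < c + (r + 1) by omega)
      (show c' + r < c' + (r + 1) by omega) h1 h2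
    omega

/-- separated bursts -/
theorem WSys.burst_inc (h : WSys A m L P pos F) {s t : Fin 5} {a b : A} {c c' d d' K : ℕ} (hst : s ≠ t)
    (hK : 1 ≤ K) (hc : c + K < m) (hc' : c' + K < m) (hd : d < m) (hd' : d' < m)
    (h1 : pos s a (c + K) ≤ pos s b d) (h2 : pos t a (c' + K) ≤ pos t b d') :
    F s t a c c' + K ≤ F s t b d d' := by
  have h3 := h.inc_many (a := a) (c := c) (c' := c') hst (K - 1) (by omega) (by omega)
  have h4 : F s t a (c + (K - 1)) (c' + (K - 1)) < F s t b d d' := by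
    apply h.inc s t a b _ _ _ _ hst (by omega) (by omega) hd hd'
    · exact lt_of_lt_of_le (h.mono s a _ _ (by omega) hc) h1
    · exact lt_of_lt_of_le (h.mono t a _ _ (by omega) hc') h2
  omega

/-- two tuples of the same three words with equal labels have the same letter -/
theorem WSys.letter_eq (h : WSys A m L P pos F) {r s t : Fin 5} (hrs : r ≠ s) (hst : s ≠ t) (hrt : r ≠ t)
    {a b : A} {c1 c2 c3 d1 d2 d3 : ℕ} (hc1 : c1 < m) (hc2 : c2 < m) (hc3 : c3 < m) (hd1 : d1 < m)
    (hd2 : d2 < m) (hd3 : d3 < m) (e1 : F r s a c1 c2 = F r s b d1 d2) (e2 : F s t a c2 c3 = F s t b d2 d3)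
    (e3 : F r t a c1 c3 = F r t b d1 d3) : a = b := by
  by_contra hab
  have n1 : pos r a c1 ≠ pos r b d1 := fun e => hab (h.inj r a b c1 d1 hc1 hd1 e).1
  have n2 : pos s a c2 ≠ pos s b d2 := fun e => hab (h.inj s a b c2 d2 hc2 hd2 e).1
  have n3 : pos t a c3 ≠ pos t b d3 := fun e => hab (h.inj t a b c3 d3 hc3 hd3 e).1
  rcases lt_or_gt_of_ne n1 with o1 | o1 <;> rcases lt_or_gt_of_ne n2 with o2 | o2 <;>
    rcases lt_or_gt_of_ne n3 with o3 | o3
  · exact absurd e1 (h.inc r s a b _ _ _ _ hrs hc1 hc2 hd1 hd2 o1 o2).ne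
  · exact absurd e1 (h.inc r s a b _ _ _ _ hrs hc1 hc2 hd1 hd2 o1 o2).ne
  · exact absurd e3 (h.inc r t a b _ _ _ _ hrt hc1 hc3 hd1 hd3 o1 o3).ne
  · exact absurd e2 (h.inc s t b a _ _ _ _ hst hd2 hd3 hc2 hc3 o2 o3).ne'
  · exact absurd e2 (h.inc s t a b _ _ _ _ hst hc2 hc3 hd2 hd3 o2 o3).ne
  · exact absurd e3 (h.inc r t b a _ _ _ _ hrt hd1 hd3 hc1 hc3 o1 o3).ne'
  · exact absurd e1 (h.inc r s b a _ _ _ _ hrs hd1 hd2 hc1 hc2 o1 o2).ne'
  · exact absurd e1 (h.inc r s b a _ _ _ _ hrs hd1 hd2 hc1 hc2 o1 o2).ne'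

theorem mod_lt_add {c d K : ℕ} (h : c % K = d % K) (hcd : c < d) : c + K ≤ d := by
  have h1 : K ∣ d - c := (Nat.modEq_iff_dvd' hcd.le).1 h
  have := Nat.le_of_dvd (by omega) h1
  omega

/-- half of the cyclic argument -/
theorem WSys.cyc_half (h : WSys A m L P pos F) {r s t : Fin 5} (hrs : r ≠ s) (hst : s ≠ t) (hrt : r ≠ t)
    {a : A} {K c1 c2 c3 d1 d2 d3 : ℕ} (hc1 : c1 + K < m) (hc2 : c2 + K < m) (hc3 : c3 + K < m)
    (hd1 : d1 + K < m) (hd2 : d2 + K < m) (hd3 : d3 + K < m)
    (e1 : F r s a c1 c2 = F r s a d1 d2) (e2 : F s t a c2 c3 = F s t a d2 d3)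
    (e3 : F r t a c1 c3 = F r t a d1 d3)
    (jc1 : F r s a c1 c2 < F r s a (c1 + K) c2) (jd2 : F s t a d2 d3 < F s t a (d2 + K) d3)
    (m1 : c1 % K = d1 % K) (m2 : c2 % K = d2 % K) (hlt : c1 < d1) : False := by
  have k1 := mod_lt_add m1 hlt
  have a2 : d2 ≤ c2 := by
    by_contra hc
    exact absurd e1 (h.inc_same (a := a) hrs hlt (by omega) (by omega) (by omega)).ne
  have a3 : d3 ≤ c3 := by
    by_contra hc
    exact absurd e3 (h.inc_same (a := a) hrt hlt (by omega) (by omega) (by omega)).ne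
  rcases eq_or_lt_of_le a2 with b2 | b2
  · have := h.Fmono r s a (c1 + K) d1 c2 hrs k1 (by omega) (by omega)
    rw [b2] at e1
    omega
  · rcases eq_or_lt_of_le a3 with b3 | b3
    · have k2 := mod_lt_add m2.symm b2
      have := h.Fmono s t a (d2 + K) c2 d3 hst k2 (by omega) (by omega)
      rw [← b3] at e2
      omega
    · exact absurd e2 (h.inc_same (a := a) hst b2 b3 (by omega) (by omega)).ne'

end basics

/-! ### counting -/

section counting
open Classical

theorem proj_card {A β ι : Type} [Fintype A] {μ : ℕ} (J : Finset (Fin 5))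
    (e : ι → A × (Fin 5 → Fin μ)) (S : Finset ι) (T : Finset β) (g : ι → β)
    (hg : ∀ x ∈ S, g x ∈ T)
    (h1 : ∀ x ∈ S, ∀ y ∈ S, g x = g y → (e x).1 = (e y).1 ∧ ∀ j ∈ J, (e x).2 j = (e y).2 j)
    (h2 : ∀ x ∈ S, ∀ y ∈ S, g x = g y → e x = e y → x = y) :
    S.card ≤ μ ^ (5 - J.card) * T.card := by
  refine Finset.card_le_mul_card_image_of_maps_to hg _ (fun b hb => ?_)
  have hc : Fintype.card ({j // j ∉ J} → Fin μ) = μ ^ (5 - J.card) := by
    rw [Fintype.card_fun, Fintype.card_fin]
    congr 1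
    rw [Fintype.card_subtype_compl]
    simp
  rw [← hc, ← Finset.card_univ]
  refine Finset.card_le_card_of_injOn (fun x (j : {j // j ∉ J}) => (e x).2 j) (fun _ _ => Finset.mem_univ _) ?_
  intro x hx y hy hxy
  simp only [Finset.coe_filter, Set.mem_setOf_eq] at hx hy
  have hgxy : g x = g y := hx.2.trans hy.2.symm
  obtain ⟨k1, k2⟩ := h1 x hx.1 y hy.1 hgxy
  apply h2 x hx.1 y hy.1 hgxy
  refine Prod.ext k1 (funext fun j => ?_)
  by_cases hj : j ∈ J
  · exact k2 j hj
  · exact congrFun hxy ⟨j, hj⟩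

variable {A : Type} [Fintype A] {m L P : ℕ} {pos : Fin 5 → A → ℕ → ℕ} {F : Fin 5 → Fin 5 → A → ℕ → ℕ → ℕ}

/-- flat points -/
noncomputable def flatS (F : Fin 5 → Fin 5 → A → ℕ → ℕ → ℕ) (K μ : ℕ) (s t : Fin 5) :
    Finset (A × (Fin 5 → Fin μ)) :=
  Finset.univ.filter fun x => F s t x.1 (x.2 s + K) (x.2 t) = F s t x.1 (x.2 s) (x.2 t) ∧
    F s t x.1 (x.2 s) (x.2 t + K) = F s t x.1 (x.2 s) (x.2 t)

theorem flat_card (h : WSys A m L P pos F) {K μ : ℕ} (hK : 1 ≤ K) (hμ : μ + K ≤ m) {s t : Fin 5}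
    (hst : s ≠ t) : (flatS F K μ s t).card ≤ μ ^ 3 * (Fintype.card A * (L * (μ / K + 1))) := by
  have hJ : ({s, t} : Finset (Fin 5)).card = 2 := Finset.card_pair hst
  have := proj_card (A := A) (μ := μ) {s, t} id (flatS F K μ s t)
    ((Finset.univ : Finset A) ×ˢ (Finset.range L ×ˢ Finset.range (μ / K + 1)))
    (fun x => (x.1, F s t x.1 (x.2 s) (x.2 t), (x.2 s : ℕ) / K)) ?_ ?_ ?_
  · rw [hJ] at this
    simpa [Finset.card_product] using this
  · intro x hx
    simp only [Finset.mem_product, Finset.mem_univ, Finset.mem_range, true_and]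
    refine ⟨h.Flt s t _ _ _ hst (by omega) (by omega), ?_⟩
    have := (x.2 s).2
    exact Nat.lt_succ_of_le (Nat.div_le_div_right (by omega))
  · intro x hx y hy hxy
    simp only [flatS, Finset.mem_filter, Finset.mem_univ, true_and] at hx hy
    simp only [Prod.mk.injEq] at hxy
    obtain ⟨e1, e2, e3⟩ := hxy
    obtain ⟨a, c⟩ := x
    obtain ⟨b, d⟩ := y
    simp only at e1 e2 e3 hx hy
    subst e1
    have bs := (c s).2
    have bt := (c t).2
    have ds := (d s).2
    have dt := (d t).2
    -- key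
    have key : ∀ c c' d d' : ℕ, c < μ → c' < μ → d < μ → d' < μ → F s t a c c' = F s t a d d' →
        F s t a (c + K) c' = F s t a c c' → F s t a d (d' + K) = F s t a d d' → c / K = d / K → ¬ c < d := by
      intro c c' d d' hc hc' hd hd' e f1 f2 q hlt
      have hd2 : d < c + K := by
        by_contra hcon
        have h1 := Nat.div_add_mod c K
        have h2 := Nat.div_add_mod d K
        have h3 := Nat.mod_lt d (show 0 < K by omega)
        have h4 := Nat.mod_lt c (show 0 < K by omega)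
        rw [q] at h1
        omega
      by_cases h1 : c' < d' + K
      · have := h.inc_same (a := a) hst hlt h1 (by omega) (by omega)
        omega
      · have := h.inc_same (a := a) hst hd2 (show d' < c' by omega) (by omega) (by omega)
        omega
    have hs : (c s : ℕ) = (d s : ℕ) := by
      rcases lt_trichotomy (c s : ℕ) (d s : ℕ) with hl | hl | hl
      · exact absurd hl (key _ _ _ _ bs bt ds dt e2 hx.1 hy.2 e3)
      · exact hl
      · exact absurd hl (key _ _ _ _ ds dt bs bt e2.symm hy.1 hx.2 e3.symm)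
    have ht : (c t : ℕ) = (d t : ℕ) := by
      rcases lt_trichotomy (c t : ℕ) (d t : ℕ) with hl | hl | hl
      · have := h.inc_same (a := a) hst (show (c s : ℕ) < c s + K by omega) hl (by omega) (by omega)
        rw [hs] at this e2 hx
        have h3 := hy.1
        omega
      · exact hl
      · have := h.inc_same (a := a) hst (show (c s : ℕ) < c s + K by omega) hl (by omega) (by omega)
        rw [← hs] at hy e2
        have h3 := hx.1
        omega
    refine ⟨rfl, fun j hj => ?_⟩
    simp only [Finset.mem_insert, Finset.mem_singleton] at hj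
    rcases hj with rfl | rfl
    · exact Fin.ext hs
    · exact Fin.ext ht
  · intro x _ y _ _ hxy
    exact hxy

/-- cyclic tuples -/
noncomputable def cycS (F : Fin 5 → Fin 5 → A → ℕ → ℕ → ℕ) (K μ : ℕ) (r s t : Fin 5) :
    Finset (A × (Fin 5 → Fin μ)) :=
  Finset.univ.filter fun x => F r s x.1 (x.2 r) (x.2 s) < F r s x.1 (x.2 r + K) (x.2 s) ∧
    F s t x.1 (x.2 s) (x.2 t) < F s t x.1 (x.2 s + K) (x.2 t) ∧
    F t r x.1 (x.2 t) (x.2 r) < F t r x.1 (x.2 t + K) (x.2 r)

theorem cyc_card (h : WSys A m L P pos F) {K μ : ℕ} (hK : 1 ≤ K) (hμ : μ + K ≤ m) {r s t : Fin 5}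
    (hrs : r ≠ s) (hst : s ≠ t) (hrt : r ≠ t) :
    (cycS F K μ r s t).card ≤ μ ^ 2 * (L * (L * (L * (K * (K * K))))) := by
  have hJ : ({r, s, t} : Finset (Fin 5)).card = 3 := by
    rw [Finset.card_insert_of_notMem, Finset.card_pair hst]
    simp [hrs, hrt]
  have := proj_card (A := A) (μ := μ) {r, s, t} id (cycS F K μ r s t)
    (Finset.range L ×ˢ (Finset.range L ×ˢ (Finset.range L ×ˢ
      (Finset.range K ×ˢ (Finset.range K ×ˢ Finset.range K)))))
    (fun x => (F r s x.1 (x.2 r) (x.2 s), F s t x.1 (x.2 s) (x.2 t), F r t x.1 (x.2 r) (x.2 t),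
      (x.2 r : ℕ) % K, (x.2 s : ℕ) % K, (x.2 t : ℕ) % K)) ?_ ?_ ?_
  · rw [hJ] at this
    simpa [Finset.card_product] using this
  · intro x hx
    simp only [Finset.mem_product, Finset.mem_range]
    exact ⟨h.Flt r s _ _ _ hrs (by omega) (by omega), h.Flt s t _ _ _ hst (by omega) (by omega),
      h.Flt r t _ _ _ hrt (by omega) (by omega), Nat.mod_lt _ (by omega), Nat.mod_lt _ (by omega),
      Nat.mod_lt _ (by omega)⟩
  · intro x hx y hy hxy
    simp only [cycS, Finset.mem_filter, Finset.mem_univ, true_and] at hx hy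
    simp only [Prod.mk.injEq] at hxy
    obtain ⟨a, c⟩ := x
    obtain ⟨b, d⟩ := y
    simp only at hxy hx hy
    obtain ⟨e1, e2, e3, m1, m2, m3⟩ := hxy
    have br := (c r).2
    have bs := (c s).2
    have bt := (c t).2
    have dr := (d r).2
    have ds := (d s).2
    have dt := (d t).2
    have hab : a = b := h.letter_eq hrs hst hrt (by omega) (by omega) (by omega) (by omega) (by omega)
      (by omega) e1 e2 e3
    subst hab
    obtain ⟨x1, x2, x3⟩ := hx
    obtain ⟨y1, y2, y3⟩ := hy
    have e3' : F t r a (c t) (c r) = F t r a (d t) (d r) := by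
      rw [h.symm t r a _ _ hrt.symm, h.symm t r a _ _ hrt.symm]; exact e3
    have e1' : F s r a (c s) (c r) = F s r a (d s) (d r) := by
      rw [h.symm s r a _ _ hrs.symm, h.symm s r a _ _ hrs.symm]; exact e1
    have e2' : F t s a (c t) (c s) = F t s a (d t) (d s) := by
      rw [h.symm t s a _ _ hst.symm, h.symm t s a _ _ hst.symm]; exact e2
    have hr : (c r : ℕ) = (d r : ℕ) := by
      rcases lt_trichotomy (c r : ℕ) (d r : ℕ) with hl | hl | hl
      · exact (h.cyc_half hrs hst hrt (by omega) (by omega) (by omega) (by omega) (by omega) (by omega)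
          e1 e2 e3 x1 y2 m1 m2 hl).elim
      · exact hl
      · exact (h.cyc_half hrs hst hrt (by omega) (by omega) (by omega) (by omega) (by omega) (by omega)
          e1.symm e2.symm e3.symm y1 x2 m1.symm m2.symm hl).elim
    have hs : (c s : ℕ) = (d s : ℕ) := by
      rcases lt_trichotomy (c s : ℕ) (d s : ℕ) with hl | hl | hl
      · exact (h.cyc_half hst hrt.symm hrs.symm (by omega) (by omega) (by omega) (by omega) (by omega)
          (by omega) e2 e3' e1' x2 y3 m2 m3 hl).elim
      · exact hl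
      · exact (h.cyc_half hst hrt.symm hrs.symm (by omega) (by omega) (by omega) (by omega) (by omega)
          (by omega) e2.symm e3'.symm e1'.symm y2 x3 m2.symm m3.symm hl).elim
    have ht : (c t : ℕ) = (d t : ℕ) := by
      rcases lt_trichotomy (c t : ℕ) (d t : ℕ) with hl | hl | hl
      · exact (h.cyc_half hrt.symm hrs hst.symm (by omega) (by omega) (by omega) (by omega) (by omega)
          (by omega) e3' e1 e2' x3 y1 m3 m1 hl).elim
      · exact hl
      · exact (h.cyc_half hrt.symm hrs hst.symm (by omega) (by omega) (by omega) (by omega) (by omega)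
          (by omega) e3'.symm e1.symm e2'.symm y3 x1 m3.symm m1.symm hl).elim
    refine ⟨rfl, fun j hj => ?_⟩
    simp only [Finset.mem_insert, Finset.mem_singleton] at hj
    rcases hj with rfl | rfl | rfl
    · exact Fin.ext hr
    · exact Fin.ext hs
    · exact Fin.ext ht
  · intro x _ y _ _ hxy
    exact hxy

/-- long bursts in a dominated word -/
noncomputable def longS (pos : Fin 5 → A → ℕ → ℕ) (F : Fin 5 → Fin 5 → A → ℕ → ℕ → ℕ) (K μ R : ℕ)
    (s t : Fin 5) : Finset (A × (Fin 5 → Fin μ)) :=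
  Finset.univ.filter fun x => F s t x.1 (x.2 s) (x.2 t + K) = F s t x.1 (x.2 s) (x.2 t) ∧
    pos t x.1 (x.2 t) + R ≤ pos t x.1 (x.2 t + K)

theorem long_card (h : WSys A m L P pos F) {K μ R : ℕ} (hK : 1 ≤ K) (hμ : μ + K ≤ m) {s t : Fin 5}
    (hst : s ≠ t) : (longS pos F K μ R s t).card * R ≤ μ ^ 3 * (P * (K * L)) := by
  have hJ : ({s, t} : Finset (Fin 5)).card = 2 := Finset.card_pair hst
  have := proj_card (A := A) (μ := μ) {s, t} (fun z : (A × (Fin 5 → Fin μ)) × ℕ => z.1)
    (longS pos F K μ R s t ×ˢ Finset.range R)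
    (Finset.range P ×ˢ (Finset.range K ×ˢ Finset.range L))
    (fun z => (pos t z.1.1 (z.1.2 t) + z.2, (z.1.2 t : ℕ) % K, F s t z.1.1 (z.1.2 s) (z.1.2 t))) ?_ ?_ ?_
  · rw [hJ] at this
    simpa [Finset.card_product] using this
  · intro z hz
    simp only [Finset.mem_product, Finset.mem_range, longS, Finset.mem_filter, Finset.mem_univ,
      true_and] at hz ⊢
    have := h.lt t z.1.1 (z.1.2 t + K) (by omega)
    exact ⟨by omega, Nat.mod_lt _ (by omega), h.Flt s t _ _ _ hst (by omega) (by omega)⟩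
  · intro z hz w hw hzw
    simp only [Finset.mem_product, Finset.mem_range, longS, Finset.mem_filter, Finset.mem_univ,
      true_and] at hz hw
    simp only [Prod.mk.injEq] at hzw
    obtain ⟨⟨a, c⟩, i⟩ := z
    obtain ⟨⟨b, d⟩, j⟩ := w
    simp only at hz hw hzw
    obtain ⟨e1, e2, e3⟩ := hzw
    have bs := (c s).2
    have bt := (c t).2
    have ds := (d s).2
    have dt := (d t).2
    have hp : pos s a (c s) = pos s b (d s) := by
      rcases lt_trichotomy (pos s a (c s)) (pos s b (d s)) with hl | hl | hl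
      · have := h.inc s t a b (c s) (c t) (d s) (d t + K) hst (by omega) (by omega) (by omega) (by omega)
          hl (by omega)
        omega
      · exact hl
      · have := h.inc s t b a (d s) (d t) (c s) (c t + K) hst (by omega) (by omega) (by omega) (by omega)
          hl (by omega)
        omega
    obtain ⟨hab, hcd⟩ := h.inj s a b _ _ (by omega) (by omega) hp
    subst hab
    have ht : (c t : ℕ) = (d t : ℕ) := by
      have hmono : ∀ x y : ℕ, x ≤ y → y < m → pos t a x ≤ pos t a y := by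
        intro x y hxy hy
        rcases eq_or_lt_of_le hxy with rfl | hlt
        · exact le_rfl
        · exact (h.mono t a x y hlt hy).le
      rcases lt_trichotomy (c t : ℕ) (d t : ℕ) with hl | hl | hl
      · have h1 := mod_lt_add e2 hl
        have h2 := hmono _ _ h1 (by omega)
        omega
      · exact hl
      · have h1 := mod_lt_add e2.symm hl
        have h2 := hmono _ _ h1 (by omega)
        omega
    refine ⟨rfl, fun k hk => ?_⟩
    simp only [Finset.mem_insert, Finset.mem_singleton] at hk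
    rcases hk with rfl | rfl
    · exact Fin.ext hcd
    · exact Fin.ext ht
  · intro z _ w _ hzw hzw2
    simp only [Prod.mk.injEq] at hzw
    refine Prod.ext hzw2 ?_
    have := hzw.1
    rw [hzw2] at this
    omega

end counting

end Pool.Agent.Helper8.BT
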