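import Mathlib
import Pool.Agent.Helper8.BT.Words

set_option autoImplicit false

/-!
Short bursts in three words.
-/

namespace Pool.Agent.Helper8.BT

open Classical

theorem div_lt_of_add_le {a b K : ℕ} (hK : 1 ≤ K) (h : a + K ≤ b) : a / K < b / K := by
  have h1 : (a + K) / K = a / K + 1 := Nat.add_div_right a hK
  have h2 := Nat.div_le_div_right (c := K) h
  omega

theorem nat_aux1 {u v u' v' q : ℕ} (hv : v < q) (hv' : v' < q) (h : u + q - v = u' + q - v')
    (hlt : u < u') : v < v' := by omega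

theorem nat_aux2 {u v v' q : ℕ} (hv : v < q) (hv' : v' < q) (h : u + q - v = u + q - v') : v = v' := by
  omega

theorem nat_aux3 {u v q : ℕ} (hu : u < q) : u + q - v < 2 * q := by omega

/-- the three words -/
def W3 (r s t : Fin 5) : Finset (Fin 5) := {r, s, t}

section
variable {A : Type} {m L P : ℕ} {pos : Fin 5 → A → ℕ → ℕ} {F : Fin 5 → Fin 5 → A → ℕ → ℕ → ℕ}

/-- bursts of two letters overlapping in one of the three words -/
theorem WSys.exists_overlap (h : WSys A m L P pos F) {r s t : Fin 5} (hrs : r ≠ s) (hst : s ≠ t)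
    (hrt : r ≠ t) {a b : A} {K : ℕ} {c d : Fin 5 → ℕ} (hK : 1 ≤ K) (hc : ∀ i, c i + K < m)
    (hd : ∀ i, d i + K < m)
    (e1 : F r s a (c r) (c s) / K = F r s b (d r) (d s) / K)
    (e2 : F s t a (c s) (c t) / K = F s t b (d s) (d t) / K)
    (e3 : F r t a (c r) (c t) / K = F r t b (d r) (d t) / K) :
    ∃ i ∈ W3 r s t, pos i b (d i) < pos i a (c i + K) ∧ pos i a (c i) < pos i b (d i + K) := by
  by_contra hcon
  push Not at hcon
  have key : ∀ (i j : Fin 5) (x y : A) (u v : Fin 5 → ℕ), i ≠ j → (∀ i, u i + K < m) → (∀ i, v i + K < m) →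
      F i j x (u i) (u j) / K = F i j y (v i) (v j) / K → pos i x (u i + K) ≤ pos i y (v i) →
      pos j x (u j + K) ≤ pos j y (v j) → False := by
    intro i j x y u v hij hu hv e h1 h2
    have h3 := h.burst_inc hij hK (hu i) (hu j) (by have := hv i; omega) (by have := hv j; omega) h1 h2
    have h4 := div_lt_of_add_le hK h3
    omega
  have hr := hcon r (by simp [W3])
  have hs := hcon s (by simp [W3])
  have ht := hcon t (by simp [W3])
  have tri : ∀ i, (pos i b (d i) < pos i a (c i + K) → pos i b (d i + K) ≤ pos i a (c i)) →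
      pos i a (c i + K) ≤ pos i b (d i) ∨ pos i b (d i + K) ≤ pos i a (c i) := by
    intro i hi
    by_cases h1 : pos i b (d i) < pos i a (c i + K)
    · exact Or.inr (hi h1)
    · exact Or.inl (not_lt.1 h1)
  rcases tri r hr with o1 | o1 <;> rcases tri s hs with o2 | o2 <;> rcases tri t ht with o3 | o3
  · exact key r s a b c d hrs hc hd e1 o1 o2
  · exact key r s a b c d hrs hc hd e1 o1 o2
  · exact key r t a b c d hrt hc hd e3 o1 o3
  · exact key s t b a d c hst hd hc e2.symm o2 o3
  · exact key s t a b c d hst hc hd e2 o2 o3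
  · exact key r t b a d c hrt hd hc e3.symm o1 o3
  · exact key r s b a d c hrs hd hc e1.symm o1 o2
  · exact key r s b a d c hrs hd hc e1.symm o1 o2

theorem div_lt_of_mod {u v K : ℕ} (hK : 1 ≤ K) (h : u % K = v % K) (hlt : u < v) : u / K < v / K :=
  div_lt_of_add_le hK (mod_lt_add h hlt)

/-- with the letter and the copy in word `i` fixed, the labels and residues determine the other two -/
theorem WSys.two_half (h : WSys A m L P pos F) {j k : Fin 5} (hjk : j ≠ k) {a : A} {K c1 c2 d1 d2 : ℕ}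
    (hK : 1 ≤ K) (hc1 : c1 + K < m) (hc2 : c2 + K < m) (hd1 : d1 + K < m) (hd2 : d2 + K < m)
    (m1 : c1 % K = d1 % K) (m2 : c2 % K = d2 % K) (e : F j k a c1 c2 / K = F j k a d1 d2 / K)
    {q : ℕ} (hq : c2 / K < q) (hq' : d2 / K < q)
    (hdiff : c1 / K + q - c2 / K = d1 / K + q - d2 / K) : ¬ c1 < d1 := by
  intro hlt
  have h1 := div_lt_of_mod hK m1 hlt
  have h2 : c2 / K < d2 / K := nat_aux1 hq hq' hdiff h1
  have h3 : c2 < d2 := by
    by_contra hcon
    have := Nat.div_le_div_right (c := K) (not_lt.1 hcon)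
    omega
  have k1 := mod_lt_add m1 hlt
  have k2 := mod_lt_add m2 h3
  have mono : ∀ (i : Fin 5) (x y : ℕ), x ≤ y → y < m → pos i a x ≤ pos i a y := by
    intro i x y hxy hy
    rcases eq_or_lt_of_le hxy with rfl | hlt
    · exact le_rfl
    · exact (h.mono i a x y hlt hy).le
  have h4 := h.burst_inc (a := a) (b := a) (s := j) (t := k) (c := c1) (c' := c2) (d := d1) (d' := d2)
    hjk hK hc1 hc2 (by omega) (by omega) (mono _ _ _ k1 (by omega)) (mono _ _ _ k2 (by omega))
  have h5 := div_lt_of_add_le hK h4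
  omega

end

section counting
variable {A : Type} [Fintype A] {m L P : ℕ} {pos : Fin 5 → A → ℕ → ℕ} {F : Fin 5 → Fin 5 → A → ℕ → ℕ → ℕ}

/-- tuples all of whose bursts in the words `r, s, t` are short -/
noncomputable def shortS (pos : Fin 5 → A → ℕ → ℕ) (K μ R : ℕ) (r s t : Fin 5) :
    Finset (A × (Fin 5 → Fin μ)) :=
  Finset.univ.filter fun x => ∀ i ∈ W3 r s t, pos i x.1 (x.2 i + K) < pos i x.1 (x.2 i) + R

/-- labels -/
noncomputable def lab3 (F : Fin 5 → Fin 5 → A → ℕ → ℕ → ℕ) (K μ : ℕ) (r s t : Fin 5)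
    (x : A × (Fin 5 → Fin μ)) : ℕ × (ℕ × ℕ) :=
  (F r s x.1 (x.2 r) (x.2 s) / K, F s t x.1 (x.2 s) (x.2 t) / K, F r t x.1 (x.2 r) (x.2 t) / K)

/-- first remaining word -/
def oj (r s i : Fin 5) : Fin 5 := if i = r then s else r
/-- second remaining word -/
def ok (s t i : Fin 5) : Fin 5 := if i = t then s else t

theorem short_card (h : WSys A m L P pos F) {K μ R : ℕ} (hK : 1 ≤ K) (hμ : μ + K ≤ m) {r s t : Fin 5}
    (hrs : r ≠ s) (hst : s ≠ t) (hrt : r ≠ t) :
    (shortS pos K μ R r s t).card ≤ μ ^ 2 * (((L / K + 1) * ((L / K + 1) * (L / K + 1))) *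
      (3 * (2 * R * (K * (K * (2 * (μ / K + 1))))))) := by
  have hJ : (W3 r s t).card = 3 := by
    rw [W3, Finset.card_insert_of_notMem, Finset.card_pair hst]
    simp [hrs, hrt]
  -- representative of a label
  set E := shortS pos K μ R r s t with hE
  rcases E.eq_empty_or_nonempty with h0 | ⟨x0, hx0⟩
  · rw [h0]; simp
  have hrep : ∀ l : ℕ × (ℕ × ℕ), ∃ z ∈ E, ∀ x ∈ E, lab3 F K μ r s t x = l → lab3 F K μ r s t z = l := by
    intro l
    by_cases hl : ∃ x ∈ E, lab3 F K μ r s t x = l
    · obtain ⟨z, hz, hzl⟩ := hl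
      exact ⟨z, hz, fun _ _ _ => hzl⟩
    · exact ⟨x0, hx0, fun x hx hxl => absurd ⟨x, hx, hxl⟩ hl⟩
  choose rep hrepE hrepl using hrep
  -- overlapping word
  have hov : ∀ x : A × (Fin 5 → Fin μ), ∃ i ∈ W3 r s t, x ∈ E →
      pos i (rep (lab3 F K μ r s t x)).1 ((rep (lab3 F K μ r s t x)).2 i) < pos i x.1 (x.2 i + K) ∧
      pos i x.1 (x.2 i) < pos i (rep (lab3 F K μ r s t x)).1 ((rep (lab3 F K μ r s t x)).2 i + K) := by
    intro x
    by_cases hx : x ∈ E
    · have hlx := hrepl (lab3 F K μ r s t x) x hx rfl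
      simp only [lab3, Prod.mk.injEq] at hlx
      obtain ⟨l1, l2, l3⟩ := hlx
      obtain ⟨i, hi, hi2⟩ := h.exists_overlap hrs hst hrt (a := x.1) (b := (rep (lab3 F K μ r s t x)).1)
        (c := fun i => x.2 i) (d := fun i => (rep (lab3 F K μ r s t x)).2 i) hK
        (fun i => by have := (x.2 i).2; omega) (fun i => by have := ((rep (lab3 F K μ r s t x)).2 i).2; omega)
        l1.symm l2.symm l3.symm
      exact ⟨i, hi, fun _ => hi2⟩
    · exact ⟨r, by simp [W3], fun hx' => absurd hx' hx⟩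
  choose ov hovW hov2 using hov
  have hmod : ∀ u : ℕ, u % K < K := fun u => Nat.mod_lt _ hK
  have := proj_card (A := A) (μ := μ) (W3 r s t) id E
    ((Finset.range (L / K + 1) ×ˢ (Finset.range (L / K + 1) ×ˢ Finset.range (L / K + 1))) ×ˢ
      (W3 r s t ×ˢ (Finset.range (2 * R) ×ˢ (Finset.range K ×ˢ (Finset.range K ×ˢ
        Finset.range (2 * (μ / K + 1)))))))
    (fun x => (lab3 F K μ r s t x, (ov x,
      (pos (ov x) x.1 (x.2 (ov x)) + R -
        pos (ov x) (rep (lab3 F K μ r s t x)).1 ((rep (lab3 F K μ r s t x)).2 (ov x)),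
      ((x.2 (oj r s (ov x)) : ℕ) % K, ((x.2 (ok s t (ov x)) : ℕ) % K,
        (x.2 (oj r s (ov x)) : ℕ) / K + (μ / K + 1) - (x.2 (ok s t (ov x)) : ℕ) / K)))))) ?_ ?_ ?_
  · rw [hJ] at this
    simpa [Finset.card_product, hJ] using this
  · intro x hx
    have hb := hov2 x hx
    have hxs : ∀ i ∈ W3 r s t, pos i x.1 (x.2 i + K) < pos i x.1 (x.2 i) + R := by
      rw [hE, shortS, Finset.mem_filter] at hx
      exact hx.2
    have hys : ∀ i ∈ W3 r s t, pos i (rep (lab3 F K μ r s t x)).1 ((rep (lab3 F K μ r s t x)).2 i + K) <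
        pos i (rep (lab3 F K μ r s t x)).1 ((rep (lab3 F K μ r s t x)).2 i) + R := by
      have := hrepE (lab3 F K μ r s t x)
      rw [hE, shortS, Finset.mem_filter] at this
      exact this.2
    have h1 := hxs _ (hovW x)
    have h2 := hys _ (hovW x)
    simp only [Finset.mem_product, Finset.mem_range]
    refine ⟨⟨?_, ?_, ?_⟩, hovW x, ?_, hmod _, hmod _, ?_⟩
    · exact Nat.lt_succ_of_le (Nat.div_le_div_right (h.Flt r s _ _ _ hrs (by omega) (by omega)).le)
    · exact Nat.lt_succ_of_le (Nat.div_le_div_right (h.Flt s t _ _ _ hst (by omega) (by omega)).le)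
    · exact Nat.lt_succ_of_le (Nat.div_le_div_right (h.Flt r t _ _ _ hrt (by omega) (by omega)).le)
    · omega
    · have := (x.2 (oj r s (ov x))).2
      have h3 := Nat.div_le_div_right (c := K) this.le
      exact nat_aux3 (Nat.lt_succ_of_le h3)
  · intro x hx y hy hxy
    simp only [Prod.mk.injEq] at hxy
    obtain ⟨e1, e2, e3, e4, e5, e6⟩ := hxy
    rw [← e1, ← e2] at e3
    rw [← e2] at e4 e5 e6
    have hbx := hov2 x hx
    have hby := hov2 y hy
    rw [← e1, ← e2] at hby
    have hxs : ∀ i ∈ W3 r s t, pos i x.1 (x.2 i + K) < pos i x.1 (x.2 i) + R := by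
      rw [hE, shortS, Finset.mem_filter] at hx
      exact hx.2
    have hys : ∀ i ∈ W3 r s t, pos i y.1 (y.2 i + K) < pos i y.1 (y.2 i) + R := by
      rw [hE, shortS, Finset.mem_filter] at hy
      exact hy.2
    have h1 := hxs _ (hovW x)
    have h2 := hys _ (hovW x)
    have hpos : pos (ov x) x.1 (x.2 (ov x)) = pos (ov x) y.1 (y.2 (ov x)) := by omega
    obtain ⟨hab, hcd⟩ := h.inj _ _ _ _ _ (by omega) (by omega) hpos
    obtain ⟨a, c⟩ := x
    obtain ⟨b, d⟩ := y
    simp only at hab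
    subst hab
    set i := ov (a, c) with hi
    have hiW : i ∈ W3 r s t := hovW (a, c)
    -- the other two words
    have hjk : oj r s i ≠ ok s t i := by
      unfold oj ok
      simp only [W3, Finset.mem_insert, Finset.mem_singleton] at hiW
      rcases hiW with h' | h' | h' <;> rw [h'] <;> simp [hrs, hst, hrt, hrs.symm, hst.symm, hrt.symm]
    have hlab : F (oj r s i) (ok s t i) a (c (oj r s i)) (c (ok s t i)) / K =
        F (oj r s i) (ok s t i) a (d (oj r s i)) (d (ok s t i)) / K := by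
      simp only [lab3, Prod.mk.injEq] at e1
      obtain ⟨l1, l2, l3⟩ := e1
      unfold oj ok
      simp only [W3, Finset.mem_insert, Finset.mem_singleton] at hiW
      rcases hiW with h' | h' | h' <;> rw [h'] <;>
        simp [hrs, hst, hrt, hrs.symm, hst.symm, hrt.symm, l1, l2, l3]
    have hJall : ∀ j ∈ W3 r s t, j = i ∨ j = oj r s i ∨ j = ok s t i := by
      intro j hj
      unfold oj ok
      simp only [W3, Finset.mem_insert, Finset.mem_singleton] at hiW hj
      rcases hiW with h' | h' | h' <;> rcases hj with h'' | h'' | h'' <;> rw [h', h''] <;>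
        simp [hrs, hst, hrt, hrs.symm, hst.symm, hrt.symm]
    have hdiv : ∀ u : ℕ, u < μ → u / K < μ / K + 1 := by
      intro u hu
      exact Nat.lt_succ_of_le (Nat.div_le_div_right hu.le)
    have hj : (c (oj r s i) : ℕ) = (d (oj r s i) : ℕ) := by
      rcases lt_trichotomy (c (oj r s i) : ℕ) (d (oj r s i) : ℕ) with hl | hl | hl
      · exact absurd hl (h.two_half hjk hK (by omega) (by omega) (by omega) (by omega) e4 e5 hlab
          (hdiv _ (c (ok s t i)).2) (hdiv _ (d (ok s t i)).2) e6)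
      · exact hl
      · exact absurd hl (h.two_half hjk hK (by omega) (by omega) (by omega) (by omega) e4.symm e5.symm
          hlab.symm (hdiv _ (d (ok s t i)).2) (hdiv _ (c (ok s t i)).2) e6.symm)
    have hk : (c (ok s t i) : ℕ) = (d (ok s t i) : ℕ) := by
      have e6' := e6
      simp only at e6' e5
      rw [hj] at e6'
      have k1 := hdiv _ (c (ok s t i)).2
      have k2 := hdiv _ (d (ok s t i)).2
      have k3 : (c (ok s t i) : ℕ) / K = (d (ok s t i) : ℕ) / K := nat_aux2 k1 k2 e6'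
      rw [← Nat.div_add_mod (c (ok s t i) : ℕ) K, ← Nat.div_add_mod (d (ok s t i) : ℕ) K, k3, e5]
    refine ⟨rfl, fun j hjj => ?_⟩
    rcases hJall j hjj with h' | h' | h'
    · rw [h']; exact Fin.ext hcd
    · rw [h']; exact Fin.ext hj
    · rw [h']; exact Fin.ext hk
  · intro x _ y _ _ hxy
    exact hxy

end counting

end Pool.Agent.Helper8.BT
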