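import Mathlib
import Pool.Agent.Helper8.BT.Short

set_option autoImplicit false

/-!
The union bound.
-/

namespace Pool.Agent.Helper8.BT

open Classical

/-- a semicomplete relation on five points without 3-cycles has a point of in-degree at most one -/
theorem semi_source (R : Fin 5 → Fin 5 → Prop) (semi : ∀ s t, s ≠ t → R s t ∨ R t s)
    (nocyc : ∀ r s t, r ≠ s → s ≠ t → r ≠ t → ¬ (R r s ∧ R s t ∧ R t r)) :
    ∃ s u, ∀ t, t ≠ s → t ≠ u → ¬ R t s := by
  let N : Fin 5 → Finset (Fin 5) := fun s => Finset.univ.filter fun t => t ≠ s ∧ R t s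
  obtain ⟨s, -, hs⟩ := Finset.exists_min_image (Finset.univ : Finset (Fin 5)) (fun s => (N s).card)
    ⟨0, Finset.mem_univ _⟩
  by_contra hcon
  push Not at hcon
  obtain ⟨t1, h1, -, h1R⟩ := hcon s s
  obtain ⟨t2, h2, h21, h2R⟩ := hcon s t1
  -- order the two in-neighbours
  have key : ∀ t1 t2 : Fin 5, t1 ≠ s → t2 ≠ s → t1 ≠ t2 → R t1 s → R t2 s → R t1 t2 → False := by
    intro t1 t2 h1 h2 h12 h1R h2R hR
    have hn : ¬ R s t1 := fun h => nocyc t1 t2 s h12 h2 h1 ⟨hR, h2R, h⟩
    have hsub : N t1 ⊂ N s := by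
      rw [Finset.ssubset_iff_of_subset]
      · refine ⟨t1, ?_, ?_⟩
        · simp [N, h1, h1R]
        · simp [N]
      · intro x hx
        simp only [N, Finset.mem_filter, Finset.mem_univ, true_and] at hx ⊢
        have hxs : x ≠ s := by
          rintro rfl
          exact hn hx.2
        refine ⟨hxs, ?_⟩
        rcases semi x s hxs with h | h
        · exact h
        · exact absurd ⟨hx.2, h1R, h⟩ (nocyc x t1 s hx.1 h1 hxs)
    exact absurd (Finset.card_lt_card hsub) (not_lt.2 (hs t1 (Finset.mem_univ _)))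
  rcases semi t1 t2 h21.symm with h | h
  · exact key t1 t2 h1 h2 h21.symm h1R h2R h
  · exact key t2 t1 h2 h1 h21 h2R h1R h

/-- pairs of distinct words -/
def Pr : Finset (Fin 5 × Fin 5) := Finset.univ.filter fun p => p.1 ≠ p.2
/-- triples of distinct words -/
def Tr : Finset (Fin 5 × (Fin 5 × Fin 5)) :=
  Finset.univ.filter fun p => p.1 ≠ p.2.1 ∧ p.2.1 ≠ p.2.2 ∧ p.1 ≠ p.2.2

theorem Pr_card : Pr.card = 20 := by decide
theorem Tr_card : Tr.card = 60 := by decide +kernel

/-- three further words -/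
theorem three_left (s u : Fin 5) : ∃ r ∈ Tr, r.1 ≠ s ∧ r.1 ≠ u ∧ r.2.1 ≠ s ∧ r.2.1 ≠ u ∧ r.2.2 ≠ s ∧
    r.2.2 ≠ u := by
  revert s u
  decide +kernel

variable {A : Type} [Fintype A] {m L P : ℕ} {pos : Fin 5 → A → ℕ → ℕ} {F : Fin 5 → Fin 5 → A → ℕ → ℕ → ℕ}

theorem cover (h : WSys A m L P pos F) {K μ : ℕ} (R : ℕ) (hK : 1 ≤ K) (hμ : μ + K ≤ m) :
    (Finset.univ : Finset (A × (Fin 5 → Fin μ))) ⊆
      ((Pr.biUnion fun p => flatS F K μ p.1 p.2) ∪ (Tr.biUnion fun p => cycS F K μ p.1 p.2.1 p.2.2)) ∪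
      ((Pr.biUnion fun p => longS pos F K μ R p.1 p.2) ∪
        (Tr.biUnion fun p => shortS pos K μ R p.1 p.2.1 p.2.2)) := by
  intro x _
  simp only [Finset.mem_union, Finset.mem_biUnion]
  by_contra hcon
  push Not at hcon
  obtain ⟨⟨n1, n2⟩, n3, n4⟩ := hcon
  obtain ⟨a, c⟩ := x
  have hb : ∀ i, (c i : ℕ) + K < m := fun i => by have := (c i).2; omega
  have hsemi : ∀ s t, s ≠ t → F s t a (c s) (c t) < F s t a (c s + K) (c t) ∨
      F t s a (c t) (c s) < F t s a (c t + K) (c s) := by
    intro s t hst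
    have h0 := n1 (s, t) (by simp [Pr, hst])
    simp only [flatS, Finset.mem_filter, Finset.mem_univ, true_and, not_and] at h0
    have h1 := h.Fmono s t a (c s) (c s + K) (c t) hst (by omega) (hb s) (by have := hb t; omega)
    rcases eq_or_lt_of_le h1 with h2 | h2
    · right
      have h3 := h0 h2.symm
      have h4 := h.Fmono' (s := s) (t := t) (a := a) (c := c s) (c' := c t) (d' := c t + K) hst
        (by omega) (hb t) (by have := hb s; omega)
      rw [h.symm t s a _ _ hst.symm, h.symm t s a _ _ hst.symm]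
      omega
    · exact Or.inl h2
  have hcyc : ∀ r s t, r ≠ s → s ≠ t → r ≠ t → ¬ (F r s a (c r) (c s) < F r s a (c r + K) (c s) ∧
      F s t a (c s) (c t) < F s t a (c s + K) (c t) ∧ F t r a (c t) (c r) < F t r a (c t + K) (c r)) := by
    intro r s t hrs hst hrt hcyc
    apply n2 (r, s, t) (by simp [Tr, hrs, hst, hrt])
    simp only [cycS, Finset.mem_filter, Finset.mem_univ, true_and]
    exact hcyc
  obtain ⟨s, u, hsu⟩ := semi_source (fun s t => F s t a (c s) (c t) < F s t a (c s + K) (c t)) hsemi hcyc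
  · obtain ⟨r, hr, k1, k2, k3, k4, k5, k6⟩ := three_left s u
    have hall : ∀ t, t ≠ s → t ≠ u → pos t a (c t + K) < pos t a (c t) + R := by
      intro t ht htu
      by_contra hlong
      have h1 := hsu t ht htu
      have h2 := h.Fmono' (s := s) (t := t) (a := a) (c := c s) (c' := c t) (d' := c t + K) ht.symm
        (by omega) (hb t) (by have := hb s; omega)
      have h3 : F s t a (c s) (c t + K) = F s t a (c s) (c t) := by
        rw [h.symm s t a _ _ ht.symm, h.symm s t a _ _ ht.symm]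
        have h4 := h.Fmono t s a (c t) (c t + K) (c s) ht (by omega) (hb t) (by have := hb s; omega)
        omega
      apply n3 (s, t) (by simp [Pr, ht.symm])
      simp only [longS, Finset.mem_filter, Finset.mem_univ, true_and]
      exact ⟨h3, by omega⟩
    apply n4 r hr
    simp only [shortS, Finset.mem_filter, Finset.mem_univ, true_and, W3, Finset.mem_insert,
      Finset.mem_singleton]
    rintro i (rfl | rfl | rfl)
    · exact hall _ k1 k2
    · exact hall _ k3 k4
    · exact hall _ k5 k6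

/-- the main counting inequality -/
theorem main_ineq (h : WSys A m L P pos F) {K μ : ℕ} (R : ℕ) (hK : 1 ≤ K) (hR : 1 ≤ R) (hμ : μ + K ≤ m) :
    Fintype.card A * μ ^ 5 ≤ 20 * (μ ^ 3 * (Fintype.card A * (L * (μ / K + 1)))) +
      60 * (μ ^ 2 * (L * (L * (L * (K * (K * K)))))) +
      (20 * (μ ^ 3 * (P * (K * L)) / R) +
      60 * (μ ^ 2 * (((L / K + 1) * ((L / K + 1) * (L / K + 1))) *
      (3 * (2 * R * (K * (K * (2 * (μ / K + 1))))))))) := by
  have h1 := Finset.card_le_card (cover h R hK hμ)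
  rw [Finset.card_univ, Fintype.card_prod, Fintype.card_fun, Fintype.card_fin, Fintype.card_fin] at h1
  refine h1.trans ((Finset.card_union_le _ _).trans (Nat.add_le_add ((Finset.card_union_le _ _).trans
    (Nat.add_le_add ?_ ?_)) ((Finset.card_union_le _ _).trans (Nat.add_le_add ?_ ?_))))
  · rw [← Pr_card]
    apply Finset.card_biUnion_le_card_mul
    intro p hp
    exact flat_card h hK hμ (by simpa [Pr] using hp)
  · rw [← Tr_card]
    apply Finset.card_biUnion_le_card_mul
    intro p hp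
    simp only [Tr, Finset.mem_filter, Finset.mem_univ, true_and] at hp
    exact cyc_card h hK hμ hp.1 hp.2.1 hp.2.2
  · rw [← Pr_card]
    apply Finset.card_biUnion_le_card_mul
    intro p hp
    rw [Nat.le_div_iff_mul_le hR]
    exact long_card h hK hμ (by simpa [Pr] using hp)
  · rw [← Tr_card]
    apply Finset.card_biUnion_le_card_mul
    intro p hp
    simp only [Tr, Finset.mem_filter, Finset.mem_univ, true_and] at hp
    exact short_card h hK hμ hp.1 hp.2.1 hp.2.2

end Pool.Agent.Helper8.BT
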