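import Mathlib
import Pool.Agent.Helper8.BT.Union

set_option autoImplicit false

/-!
Building the words and labels from sets of positions.
-/

namespace Pool.Agent.Helper8.BT

open Classical

section
variable {A : Type} (S : Fin 5 → A → Finset ℕ)

/-- `X` is a set of links between the words `s` and `t`, pairwise strictly comparable -/
def Chn (s t : Fin 5) (X : Finset (ℕ × ℕ)) : Prop :=
  (∀ z ∈ X, ∃ a, z.1 ∈ S s a ∧ z.2 ∈ S t a) ∧
    ∀ z ∈ X, ∀ w ∈ X, z ≠ w → (z.1 < w.1 ∧ z.2 < w.2) ∨ (w.1 < z.1 ∧ w.2 < z.2)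

theorem Chn.swap {S : Fin 5 → A → Finset ℕ} {s t : Fin 5} {X : Finset (ℕ × ℕ)} (h : Chn S s t X) :
    Chn S t s (X.image Prod.swap) := by
  constructor
  · intro z hz
    rw [Finset.mem_image] at hz
    obtain ⟨w, hw, rfl⟩ := hz
    obtain ⟨a, h1, h2⟩ := h.1 w hw
    exact ⟨a, h2, h1⟩
  · intro z hz w hw hne
    rw [Finset.mem_image] at hz hw
    obtain ⟨z', hz', rfl⟩ := hz
    obtain ⟨w', hw', rfl⟩ := hw
    have hne' : z' ≠ w' := by rintro rfl; exact hne rfl
    rcases h.2 z' hz' w' hw' hne' with h1 | h1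
    · exact Or.inl ⟨h1.2, h1.1⟩
    · exact Or.inr ⟨h1.2, h1.1⟩

/-- positions -/
noncomputable def bpos (m : ℕ) (hm : ∀ s a, m ≤ (S s a).card) (s : Fin 5) (a : A) (c : ℕ) : ℕ :=
  if h : c < m then (S s a).orderEmbOfCardLe (hm s a) ⟨c, h⟩ else 0

/-- labels -/
noncomputable def bF (P m : ℕ) (hm : ∀ s a, m ≤ (S s a).card) (s t : Fin 5) (a : A) (c c' : ℕ) : ℕ :=
  ((Finset.range P ×ˢ Finset.range P).powerset.filter fun X => Chn S s t X ∧
    ∀ z ∈ X, z.1 < bpos S m hm s a c ∧ z.2 < bpos S m hm t a c').sup Finset.card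

theorem bpos_mem {m : ℕ} (hm : ∀ s a, m ≤ (S s a).card) (s : Fin 5) (a : A) {c : ℕ} (hc : c < m) :
    bpos S m hm s a c ∈ S s a := by
  rw [bpos, dif_pos hc]
  exact Finset.orderEmbOfCardLe_mem _ _ _

theorem bpos_lt {m : ℕ} (hm : ∀ s a, m ≤ (S s a).card) (s : Fin 5) (a : A) {c d : ℕ} (hcd : c < d)
    (hd : d < m) : bpos S m hm s a c < bpos S m hm s a d := by
  rw [bpos, dif_pos (hcd.trans hd), bpos, dif_pos hd]
  exact (OrderEmbedding.lt_iff_lt _).2 hcd

theorem le_bF {P m : ℕ} (hm : ∀ s a, m ≤ (S s a).card) (s t : Fin 5) (a : A) {c c' : ℕ}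
    {X : Finset (ℕ × ℕ)} (hP : ∀ z ∈ X, z.1 < P ∧ z.2 < P) (hX : Chn S s t X)
    (hb : ∀ z ∈ X, z.1 < bpos S m hm s a c ∧ z.2 < bpos S m hm t a c') :
    X.card ≤ bF S P m hm s t a c c' := by
  apply Finset.le_sup (f := Finset.card)
  simp only [Finset.mem_filter, Finset.mem_powerset]
  refine ⟨fun z hz => ?_, hX, hb⟩
  rw [Finset.mem_product, Finset.mem_range, Finset.mem_range]
  exact hP z hz

theorem exists_bF (P : ℕ) {m : ℕ} (hm : ∀ s a, m ≤ (S s a).card) (s t : Fin 5) (a : A) (c c' : ℕ) :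
    ∃ X : Finset (ℕ × ℕ), (∀ z ∈ X, z.1 < P ∧ z.2 < P) ∧ Chn S s t X ∧
      (∀ z ∈ X, z.1 < bpos S m hm s a c ∧ z.2 < bpos S m hm t a c') ∧ X.card = bF S P m hm s t a c c' := by
  obtain ⟨X, hX, hXc⟩ := Finset.exists_mem_eq_sup ((Finset.range P ×ˢ Finset.range P).powerset.filter
    fun X => Chn S s t X ∧ ∀ z ∈ X, z.1 < bpos S m hm s a c ∧ z.2 < bpos S m hm t a c')
    ⟨∅, by simp [Chn]⟩ Finset.card
  simp only [Finset.mem_filter, Finset.mem_powerset] at hX
  refine ⟨X, fun z hz => ?_, hX.2.1, hX.2.2, hXc.symm⟩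
  have := hX.1 hz
  rwa [Finset.mem_product, Finset.mem_range, Finset.mem_range] at this

theorem bF_symm_le {P m : ℕ} (hm : ∀ s a, m ≤ (S s a).card) (s t : Fin 5) (a : A) (c c' : ℕ) :
    bF S P m hm s t a c c' ≤ bF S P m hm t s a c' c := by
  obtain ⟨X, h1, h2, h3, h4⟩ := exists_bF S P hm s t a c c'
  rw [← h4]
  have h5 : (X.image Prod.swap).card = X.card := Finset.card_image_of_injective _ Prod.swap_injective
  rw [← h5]
  apply le_bF
  · intro z hz
    rw [Finset.mem_image] at hz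
    obtain ⟨w, hw, rfl⟩ := hz
    exact (h1 w hw).symm
  · exact h2.swap
  · intro z hz
    rw [Finset.mem_image] at hz
    obtain ⟨w, hw, rfl⟩ := hz
    exact (h3 w hw).symm

theorem build {P m L : ℕ} (hm : ∀ s a, m ≤ (S s a).card) (hP : ∀ s a, ∀ x ∈ S s a, x < P)
    (hdisj : ∀ s a b, ∀ x, x ∈ S s a → x ∈ S s b → a = b)
    (hL : ∀ s t, s ≠ t → ∀ X, Chn S s t X → X.card < L) :
    WSys A m L P (bpos S m hm) (bF S P m hm) where
  mono := fun s a c d hcd hd => bpos_lt S hm s a hcd hd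
  inj := by
    intro s a b c d hc hd e
    have h1 := bpos_mem S hm s a hc
    have h2 := bpos_mem S hm s b hd
    rw [e] at h1
    have hab := hdisj s a b _ h1 h2
    subst hab
    refine ⟨rfl, ?_⟩
    rcases lt_trichotomy c d with h | h | h
    · exact absurd e (bpos_lt S hm s a h hd).ne
    · exact h
    · exact absurd e (bpos_lt S hm s a h hc).ne'
  lt := fun s a c hc => hP s a _ (bpos_mem S hm s a hc)
  Flt := by
    intro s t a c c' hst _ _
    obtain ⟨X, -, h2, -, h4⟩ := exists_bF S P hm s t a c c'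
    rw [← h4]
    exact hL s t hst X h2
  symm := fun s t a c c' _ => le_antisymm (bF_symm_le S hm s t a c c') (bF_symm_le S hm t s a c' c)
  inc := by
    intro s t a b c c' d d' _ hc hc' hd hd' h1 h2
    obtain ⟨X, k1, k2, k3, k4⟩ := exists_bF S P hm s t a c c'
    rw [← k4]
    have hn : (bpos S m hm s a c, bpos S m hm t a c') ∉ X := fun hmem => by
      have := (k3 _ hmem).1
      simp at this
    have hcard := Finset.card_insert_of_notMem hn
    have : (insert (bpos S m hm s a c, bpos S m hm t a c') X).card ≤ bF S P m hm s t b d d' := by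
      apply le_bF
      · intro z hz
        rw [Finset.mem_insert] at hz
        rcases hz with rfl | hz
        · exact ⟨hP s a _ (bpos_mem S hm s a hc), hP t a _ (bpos_mem S hm t a hc')⟩
        · exact k1 z hz
      · constructor
        · intro z hz
          rw [Finset.mem_insert] at hz
          rcases hz with rfl | hz
          · exact ⟨a, bpos_mem S hm s a hc, bpos_mem S hm t a hc'⟩
          · exact k2.1 z hz
        · intro z hz w hw hne
          rw [Finset.mem_insert] at hz hw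
          rcases hz with rfl | hz <;> rcases hw with rfl | hw
          · exact absurd rfl hne
          · exact Or.inr (k3 w hw)
          · exact Or.inl (k3 z hz)
          · exact k2.2 z hz w hw hne
      · intro z hz
        rw [Finset.mem_insert] at hz
        rcases hz with rfl | hz
        · exact ⟨h1, h2⟩
        · have := k3 z hz
          exact ⟨this.1.trans h1, this.2.trans h2⟩
    omega
  Fmono := by
    intro s t a c d c' _ hcd hd _
    obtain ⟨X, k1, k2, k3, k4⟩ := exists_bF S P hm s t a c c'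
    rw [← k4]
    apply le_bF S hm s t a k1 k2
    intro z hz
    refine ⟨lt_of_lt_of_le (k3 z hz).1 ?_, (k3 z hz).2⟩
    rcases eq_or_lt_of_le hcd with rfl | hlt
    · exact le_rfl
    · exact (bpos_lt S hm s a hlt hd).le

end

end Pool.Agent.Helper8.BT
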