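import Mathlib
import Pool.Agent.Helper8.BT.Union

set_option autoImplicit false

/-!
Numerics.
-/

namespace Pool.Agent.Helper8.BT

theorem div_succ_mul_le {x K : ℕ} (h : K ≤ x) : (x / K + 1) * K ≤ 2 * x := by
  have := Nat.div_mul_le_self x K
  nlinarith

theorem pow12 {k : ℕ} (hk : 16 ≤ k) : 2 ^ 48 ≤ k ^ 12 := by
  calc 2 ^ 48 = 16 ^ 12 := by norm_num
    _ ≤ k ^ 12 := Nat.pow_le_pow_left hk 12

/-- first term -/
theorem num1 {n k N μ L : ℕ} (hk : 16 ≤ k) (hn : k ^ 15 ≤ n) (hμ : n ≤ 2 ^ 12 * μ)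
    (hL : 2 ^ 38 * L ≤ k ^ 16) :
    5 * (20 * (μ ^ 3 * (N * (L * (μ / k ^ 4 + 1))))) ≤ N * μ ^ 5 := by
  have hk4 : 0 < k ^ 4 := by positivity
  have hKμ : k ^ 4 ≤ μ := by
    have h1 : 2 ^ 12 * k ^ 4 ≤ 2 ^ 12 * μ := by
      calc 2 ^ 12 * k ^ 4 ≤ k ^ 11 * k ^ 4 := by
            apply Nat.mul_le_mul_right
            calc 2 ^ 12 ≤ 16 ^ 11 := by norm_num
              _ ≤ k ^ 11 := Nat.pow_le_pow_left hk 11
        _ = k ^ 15 := by ring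
        _ ≤ n := hn
        _ ≤ _ := hμ
    omega
  have hq := div_succ_mul_le hKμ
  set q := μ / k ^ 4 + 1 with hqd
  have key : 100 * L * q ≤ μ ^ 2 := by
    apply Nat.le_of_mul_le_mul_right _ hk4
    calc 100 * L * q * k ^ 4 = 100 * L * (q * k ^ 4) := by ring
      _ ≤ 100 * L * (2 * μ) := Nat.mul_le_mul_left _ hq
      _ = μ * (200 * L) := by ring
      _ ≤ μ * (μ * k ^ 4) := by
          apply Nat.mul_le_mul_left
          have h1 : 2 ^ 38 * (200 * L) ≤ 2 ^ 38 * (μ * k ^ 4) := by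
            calc 2 ^ 38 * (200 * L) = 200 * (2 ^ 38 * L) := by ring
              _ ≤ 200 * k ^ 16 := Nat.mul_le_mul_left _ hL
              _ ≤ 2 ^ 26 * k ^ 19 := by
                  have : k ^ 16 ≤ k ^ 19 := Nat.pow_le_pow_right (by omega) (by norm_num)
                  omega
              _ = 2 ^ 26 * (k ^ 15 * k ^ 4) := by ring
              _ ≤ 2 ^ 26 * ((2 ^ 12 * μ) * k ^ 4) := by
                  apply Nat.mul_le_mul_left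
                  exact Nat.mul_le_mul_right _ (hn.trans hμ)
              _ = 2 ^ 38 * (μ * k ^ 4) := by ring
          exact Nat.le_of_mul_le_mul_left h1 (by norm_num)
      _ = μ ^ 2 * k ^ 4 := by ring
  calc 5 * (20 * (μ ^ 3 * (N * (L * q)))) = N * μ ^ 3 * (100 * L * q) := by ring
    _ ≤ N * μ ^ 3 * μ ^ 2 := Nat.mul_le_mul_left _ key
    _ = N * μ ^ 5 := by ring

theorem nmu {n N μ : ℕ} (hN : n ≤ 2 ^ 33 * N) (hμ : n ≤ 2 ^ 12 * μ) : n ^ 4 ≤ 2 ^ 69 * (N * μ ^ 3) := by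
  calc n ^ 4 = n * n ^ 3 := by ring
    _ ≤ (2 ^ 33 * N) * (2 ^ 12 * μ) ^ 3 := Nat.mul_le_mul hN (Nat.pow_le_pow_left hμ 3)
    _ = 2 ^ 69 * (N * μ ^ 3) := by ring

/-- second term -/
theorem num2 {n k N μ L : ℕ} (hn : k ^ 15 ≤ n) (hN : n ≤ 2 ^ 33 * N) (hμ : n ≤ 2 ^ 12 * μ)
    (hL : 2 ^ 38 * L ≤ k ^ 16) :
    5 * (60 * (μ ^ 2 * (L * (L * (L * (k ^ 4 * (k ^ 4 * k ^ 4))))))) ≤ N * μ ^ 5 := by
  have key : 300 * (L ^ 3 * k ^ 12) ≤ N * μ ^ 3 := by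
    have h1 : 2 ^ 114 * (300 * (L ^ 3 * k ^ 12)) ≤ 2 ^ 114 * (N * μ ^ 3) := by
      calc 2 ^ 114 * (300 * (L ^ 3 * k ^ 12)) = 300 * ((2 ^ 38 * L) ^ 3 * k ^ 12) := by ring
        _ ≤ 300 * ((k ^ 16) ^ 3 * k ^ 12) := by
            apply Nat.mul_le_mul_left
            exact Nat.mul_le_mul_right _ (Nat.pow_le_pow_left hL 3)
        _ = 300 * (k ^ 15) ^ 4 := by ring
        _ ≤ 300 * n ^ 4 := Nat.mul_le_mul_left _ (Nat.pow_le_pow_left hn 4)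
        _ ≤ 300 * (2 ^ 69 * (N * μ ^ 3)) := Nat.mul_le_mul_left _ (nmu hN hμ)
        _ ≤ 2 ^ 114 * (N * μ ^ 3) := by
            generalize N * μ ^ 3 = x
            omega
    exact Nat.le_of_mul_le_mul_left h1 (by norm_num)
  calc 5 * (60 * (μ ^ 2 * (L * (L * (L * (k ^ 4 * (k ^ 4 * k ^ 4))))))) =
        μ ^ 2 * (300 * (L ^ 3 * k ^ 12)) := by ring
    _ ≤ μ ^ 2 * (N * μ ^ 3) := Nat.mul_le_mul_left _ key
    _ = N * μ ^ 5 := by ring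

/-- third term -/
theorem num3 {k N μ L P R : ℕ} (hNμ : 0 < N * μ ^ 2)
    (hR : R = 100 * (P * (k ^ 4 * L)) / (N * μ ^ 2) + 1) :
    5 * (20 * (μ ^ 3 * (P * (k ^ 4 * L)) / R)) ≤ N * μ ^ 5 := by
  have h1 : 100 * (P * (k ^ 4 * L)) < (N * μ ^ 2) * R := by
    rw [hR]
    exact Nat.lt_mul_div_succ _ hNμ
  have hR0 : 0 < R := by
    rw [hR]
    exact Nat.succ_pos _
  have h2 : μ ^ 3 * (P * (k ^ 4 * L)) / R * R ≤ μ ^ 3 * (P * (k ^ 4 * L)) := Nat.div_mul_le_self _ _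
  apply Nat.le_of_mul_le_mul_right _ hR0
  calc 5 * (20 * (μ ^ 3 * (P * (k ^ 4 * L)) / R)) * R = 100 * (μ ^ 3 * (P * (k ^ 4 * L)) / R * R) := by ring
    _ ≤ 100 * (μ ^ 3 * (P * (k ^ 4 * L))) := Nat.mul_le_mul_left _ h2
    _ = μ ^ 3 * (100 * (P * (k ^ 4 * L))) := by ring
    _ ≤ μ ^ 3 * ((N * μ ^ 2) * R) := Nat.mul_le_mul_left _ h1.le
    _ = N * μ ^ 5 * R := by ring

/-- fourth term -/
theorem num4 {n k N μ L R : ℕ} (hk : 16 ≤ k) (hn : k ^ 15 ≤ n) (hN : n ≤ 2 ^ 33 * N)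
    (hμ : n ≤ 2 ^ 12 * μ) (hL : 2 ^ 38 * L ≤ k ^ 16) (hL2 : k ^ 4 ≤ L)
    (hR : R = 100 * (n ^ 2 * (k ^ 4 * L)) / (N * μ ^ 2) + 1) :
    5 * (60 * (μ ^ 2 * (((L / k ^ 4 + 1) * ((L / k ^ 4 + 1) * (L / k ^ 4 + 1))) *
      (3 * (2 * R * (k ^ 4 * (k ^ 4 * (2 * (μ / k ^ 4 + 1))))))))) ≤ N * μ ^ 5 := by
  have hk4 : 0 < k ^ 4 := by positivity
  have hn0 : 0 < n := lt_of_lt_of_le (by positivity) hn
  have hN0 : 0 < N := by
    rcases Nat.eq_zero_or_pos N with h | h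
    · rw [h] at hN; omega
    · exact h
  have hμ0 : 0 < μ := by
    rcases Nat.eq_zero_or_pos μ with h | h
    · rw [h] at hμ; omega
    · exact h
  have hNμ : 0 < N * μ ^ 2 := by positivity
  have hKμ : k ^ 4 ≤ μ := by
    have h1 : 2 ^ 12 * k ^ 4 ≤ 2 ^ 12 * μ := by
      calc 2 ^ 12 * k ^ 4 ≤ k ^ 11 * k ^ 4 := by
            apply Nat.mul_le_mul_right
            calc 2 ^ 12 ≤ 16 ^ 11 := by norm_num
              _ ≤ k ^ 11 := Nat.pow_le_pow_left hk 11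
        _ = k ^ 15 := by ring
        _ ≤ n := hn
        _ ≤ _ := hμ
    omega
  have hq := div_succ_mul_le hKμ
  have hl := div_succ_mul_le hL2
  set q := μ / k ^ 4 + 1 with hqd
  set l := L / k ^ 4 + 1 with hld
  have hR2 : R * (N * μ ^ 2) ≤ 100 * (n ^ 2 * (k ^ 4 * L)) + N * μ ^ 2 := by
    rw [hR, Nat.add_mul, Nat.one_mul]
    exact Nat.add_le_add_right (Nat.div_mul_le_self _ _) _
  -- a)
  have ha : 2 * (57600 * L ^ 3 * (100 * (n ^ 2 * (k ^ 4 * L)))) ≤ (N * μ ^ 2) ^ 2 * (k ^ 4) ^ 2 := by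
    have h1 : 2 ^ 152 * (2 * (57600 * L ^ 3 * (100 * (n ^ 2 * (k ^ 4 * L))))) ≤
        2 ^ 152 * ((N * μ ^ 2) ^ 2 * (k ^ 4) ^ 2) := by
      calc 2 ^ 152 * (2 * (57600 * L ^ 3 * (100 * (n ^ 2 * (k ^ 4 * L))))) =
            11520000 * (n ^ 2 * k ^ 4 * (2 ^ 38 * L) ^ 4) := by ring
        _ ≤ 11520000 * (n ^ 2 * k ^ 4 * (k ^ 16) ^ 4) := by
            apply Nat.mul_le_mul_left
            exact Nat.mul_le_mul_left _ (Nat.pow_le_pow_left hL 4)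
        _ = 11520000 * (n ^ 2 * (k ^ 15) ^ 4 * (k ^ 4) ^ 2) := by ring
        _ ≤ 11520000 * (n ^ 2 * n ^ 4 * (k ^ 4) ^ 2) := by
            apply Nat.mul_le_mul_left
            exact Nat.mul_le_mul_right _ (Nat.mul_le_mul_left _ (Nat.pow_le_pow_left hn 4))
        _ = 11520000 * (n ^ 2 * n ^ 4) * (k ^ 4) ^ 2 := by ring
        _ ≤ 11520000 * ((2 ^ 33 * N) ^ 2 * (2 ^ 12 * μ) ^ 4) * (k ^ 4) ^ 2 := by
            apply Nat.mul_le_mul_right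
            apply Nat.mul_le_mul_left
            exact Nat.mul_le_mul (Nat.pow_le_pow_left hN 2) (Nat.pow_le_pow_left hμ 4)
        _ = (11520000 * 2 ^ 114) * ((N * μ ^ 2) ^ 2 * (k ^ 4) ^ 2) := by ring
        _ ≤ 2 ^ 152 * ((N * μ ^ 2) ^ 2 * (k ^ 4) ^ 2) := Nat.mul_le_mul_right _ (by norm_num)
    exact Nat.le_of_mul_le_mul_left h1 (by norm_num)
  -- b)
  have hb : 2 * (57600 * L ^ 3) ≤ (N * μ ^ 2) * (k ^ 4) ^ 2 := by
    have h1 : 2 ^ 114 * (2 * (57600 * L ^ 3)) ≤ 2 ^ 114 * ((N * μ ^ 2) * (k ^ 4) ^ 2) := by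
      calc 2 ^ 114 * (2 * (57600 * L ^ 3)) = 115200 * (2 ^ 38 * L) ^ 3 := by ring
        _ ≤ 115200 * (k ^ 16) ^ 3 := Nat.mul_le_mul_left _ (Nat.pow_le_pow_left hL 3)
        _ = 115200 * (k ^ 45 * k ^ 3) := by ring
        _ ≤ 115200 * (k ^ 45 * (k ^ 4) ^ 2) := by
            apply Nat.mul_le_mul_left
            apply Nat.mul_le_mul_left
            rw [← pow_mul]
            exact Nat.pow_le_pow_right (by omega) (by norm_num)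
        _ = 115200 * ((k ^ 15) * (k ^ 15) ^ 2) * (k ^ 4) ^ 2 := by ring
        _ ≤ 115200 * (n * n ^ 2) * (k ^ 4) ^ 2 := by
            apply Nat.mul_le_mul_right
            apply Nat.mul_le_mul_left
            exact Nat.mul_le_mul hn (Nat.pow_le_pow_left hn 2)
        _ ≤ 115200 * ((2 ^ 33 * N) * (2 ^ 12 * μ) ^ 2) * (k ^ 4) ^ 2 := by
            apply Nat.mul_le_mul_right
            apply Nat.mul_le_mul_left
            exact Nat.mul_le_mul hN (Nat.pow_le_pow_left hμ 2)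
        _ = (115200 * 2 ^ 57) * ((N * μ ^ 2) * (k ^ 4) ^ 2) := by ring
        _ ≤ 2 ^ 114 * ((N * μ ^ 2) * (k ^ 4) ^ 2) := Nat.mul_le_mul_right _ (by norm_num)
    exact Nat.le_of_mul_le_mul_left h1 (by norm_num)
  have key : 57600 * L ^ 3 * R ≤ N * μ ^ 2 * (k ^ 4) ^ 2 := by
    have h1 : 2 * (N * μ ^ 2) * (57600 * L ^ 3 * R) ≤ 2 * (N * μ ^ 2) * (N * μ ^ 2 * (k ^ 4) ^ 2) := by
      calc 2 * (N * μ ^ 2) * (57600 * L ^ 3 * R) = 2 * (57600 * L ^ 3) * (R * (N * μ ^ 2)) := by ring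
        _ ≤ 2 * (57600 * L ^ 3) * (100 * (n ^ 2 * (k ^ 4 * L)) + N * μ ^ 2) := Nat.mul_le_mul_left _ hR2
        _ = 2 * (57600 * L ^ 3 * (100 * (n ^ 2 * (k ^ 4 * L)))) + 2 * (57600 * L ^ 3) * (N * μ ^ 2) := by ring
        _ ≤ (N * μ ^ 2) ^ 2 * (k ^ 4) ^ 2 + (N * μ ^ 2) * (k ^ 4) ^ 2 * (N * μ ^ 2) :=
            Nat.add_le_add ha (Nat.mul_le_mul_right _ hb)
        _ = _ := by ring
    exact Nat.le_of_mul_le_mul_left h1 (by positivity)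
  have hK4 : 0 < (k ^ 4) ^ 4 := by positivity
  apply Nat.le_of_mul_le_mul_right _ hK4
  calc 5 * (60 * (μ ^ 2 * ((l * (l * l)) * (3 * (2 * R * (k ^ 4 * (k ^ 4 * (2 * q)))))))) * (k ^ 4) ^ 4 =
        3600 * (μ ^ 2 * R * (k ^ 4) ^ 2) * ((l * k ^ 4) ^ 3 * (q * k ^ 4)) := by ring
    _ ≤ 3600 * (μ ^ 2 * R * (k ^ 4) ^ 2) * ((2 * L) ^ 3 * (2 * μ)) := by
        apply Nat.mul_le_mul_left
        exact Nat.mul_le_mul (Nat.pow_le_pow_left hl 3) hq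
    _ = μ ^ 3 * (k ^ 4) ^ 2 * (57600 * L ^ 3 * R) := by ring
    _ ≤ μ ^ 3 * (k ^ 4) ^ 2 * (N * μ ^ 2 * (k ^ 4) ^ 2) := Nat.mul_le_mul_left _ key
    _ = N * μ ^ 5 * (k ^ 4) ^ 4 := by ring

/-- no such system exists -/
theorem no_WSys {A : Type} [Fintype A] {m L : ℕ} {pos : Fin 5 → A → ℕ → ℕ}
    {F : Fin 5 → Fin 5 → A → ℕ → ℕ → ℕ} {n k : ℕ} (hk : 16 ≤ k) (hn : k ^ 15 ≤ n)
    (hN : n ≤ 2 ^ 33 * Fintype.card A) (hm : n < 2 ^ 10 * (m + 1)) (hL : 2 ^ 38 * L ≤ k ^ 16) (hL2 : k ^ 4 ≤ L)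
    (h : WSys A m L (n ^ 2) pos F) : False := by
  have hbig : 2 ^ 13 * k ^ 4 ≤ n := by
    calc 2 ^ 13 * k ^ 4 ≤ k ^ 11 * k ^ 4 := by
          apply Nat.mul_le_mul_right
          calc 2 ^ 13 ≤ 16 ^ 11 := by norm_num
            _ ≤ k ^ 11 := Nat.pow_le_pow_left hk 11
      _ = k ^ 15 := by ring
      _ ≤ n := hn
  have hk41 : 1 ≤ k ^ 4 := Nat.one_le_pow _ _ (by omega)
  have hμ : n ≤ 2 ^ 12 * (n / 2 ^ 11) := by omega
  have hμm : n / 2 ^ 11 + k ^ 4 ≤ m := by omega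
  have hn0 : 0 < n := by omega
  have hN0 : 0 < Fintype.card A := by
    rcases Nat.eq_zero_or_pos (Fintype.card A) with h | h
    · rw [h] at hN; omega
    · exact h
  have hμ0 : 0 < n / 2 ^ 11 := by omega
  have hNμ : 0 < Fintype.card A * (n / 2 ^ 11) ^ 2 := by positivity
  obtain ⟨R, hR⟩ : ∃ R, R = 100 * (n ^ 2 * (k ^ 4 * L)) / (Fintype.card A * (n / 2 ^ 11) ^ 2) + 1 := ⟨_, rfl⟩
  have hR1 : 1 ≤ R := by
    rw [hR]
    exact Nat.le_add_left 1 _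
  have hmain := main_ineq h R hk41 hR1 hμm
  have h1 := num1 (N := Fintype.card A) hk hn hμ hL
  have h2 := num2 hn hN hμ hL
  have h3 := num3 (k := k) hNμ hR
  have h4 := num4 hk hn hN hμ hL hL2 hR
  have hpos : 0 < Fintype.card A * (n / 2 ^ 11) ^ 5 := by positivity
  omega

end Pool.Agent.Helper8.BT
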