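import Mathlib
import Pool.Agent.Helper8.BT.Build
import Pool.Agent.Helper8.BT.Num

set_option autoImplicit false

/-!
The grid: many rows (or many columns) meet the same five blocks heavily.
-/

namespace Pool.Agent.Helper8.BT

open Classical

section blocks
variable {n : ℕ} (bl : Fin n → Fin n → Fin 64)

/-- number of cells of row `i` in block `b` -/
noncomputable def rc (i : Fin n) (b : Fin 64) : ℕ := (Finset.univ.filter fun j => bl i j = b).card

/-- heavy blocks of row `i` -/
noncomputable def hv (i : Fin n) : Finset (Fin 64) := Finset.univ.filter fun b => n ≤ 1024 * rc bl i b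

/-- rows with at least five heavy blocks -/
noncomputable def rich : Finset (Fin n) := Finset.univ.filter fun i => 5 ≤ (hv bl i).card

/-- cells in light blocks of their row -/
noncomputable def lightC : Finset (Fin n × Fin n) := Finset.univ.filter fun v => bl v.1 v.2 ∉ hv bl v.1

theorem light_card : 16 * (lightC bl).card ≤ n * n := by
  have h1 : ∀ i ∈ (Finset.univ : Finset (Fin n)),
      ((lightC bl).filter fun v => v.1 = i).card ≤ n / 16 := by
    intro i _
    have h2 : ∀ b ∈ (Finset.univ : Finset (Fin 64)),
        (((lightC bl).filter fun v => v.1 = i).filter fun v => bl v.1 v.2 = b).card ≤ n / 1024 := by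
      intro b _
      by_cases hb : b ∈ hv bl i
      · have : (((lightC bl).filter fun v => v.1 = i).filter fun v => bl v.1 v.2 = b) = ∅ := by
          apply Finset.eq_empty_of_forall_notMem
          intro v hv'
          simp only [Finset.mem_filter, lightC, Finset.mem_univ, true_and] at hv'
          obtain ⟨⟨h3, h4⟩, h5⟩ := hv'
          rw [h4] at h3
          rw [h4] at h5
          exact h3 (by rw [h5]; exact hb)
        rw [this]; simp
      · have h3 : (((lightC bl).filter fun v => v.1 = i).filter fun v => bl v.1 v.2 = b).card ≤ rc bl i b := by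
          apply Finset.card_le_card_of_injOn (fun v => v.2)
          · intro v hv'
            simp only [Finset.coe_filter, Finset.mem_filter, Set.mem_ofPred_eq] at hv'
            simp only [Finset.coe_filter, Finset.mem_univ, true_and, Set.mem_ofPred_eq]
            rw [← hv'.1.2]; exact hv'.2
          · intro v hv' w hw' hvw
            simp only [Finset.coe_filter, Finset.mem_filter, Set.mem_ofPred_eq] at hv' hw'
            exact Prod.ext (hv'.1.2.trans hw'.1.2.symm) hvw
        have h4 : 1024 * rc bl i b < n := by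
          simpa [hv] using hb
        omega
    have h5 := Finset.card_le_mul_card_image_of_maps_to (s := (lightC bl).filter fun v => v.1 = i)
      (f := fun v => bl v.1 v.2) (t := Finset.univ) (fun _ _ => Finset.mem_univ _) (n / 1024) h2
    rw [Finset.card_univ, Fintype.card_fin] at h5
    omega
  have h6 := Finset.card_le_mul_card_image_of_maps_to (s := lightC bl)
      (f := fun v => v.1) (t := Finset.univ) (fun _ _ => Finset.mem_univ _) (n / 16) h1
  rw [Finset.card_univ, Fintype.card_fin] at h6
  calc 16 * (lightC bl).card ≤ 16 * (n / 16 * n) := Nat.mul_le_mul_left _ h6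
    _ = (16 * (n / 16)) * n := by ring
    _ ≤ n * n := Nat.mul_le_mul_right _ (Nat.mul_div_le _ _)

/-- poor rows with block `b` heavy -/
noncomputable def poorB (b : Fin 64) : Finset (Fin n) :=
  Finset.univ.filter fun i => i ∉ rich bl ∧ b ∈ hv bl i

theorem poor_sum : ∑ b, (poorB bl b).card ≤ 4 * n := by
  have h1 : ∑ b, (poorB bl b).card = ∑ i : Fin n, (Finset.univ.filter fun b => i ∉ rich bl ∧ b ∈ hv bl i).card := by
    simp only [poorB, Finset.card_filter]
    exact Finset.sum_comm
  rw [h1]
  calc _ ≤ ∑ i : Fin n, 4 := by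
        apply Finset.sum_le_sum
        intro i _
        by_cases hi : i ∈ rich bl
        · simp [hi]
        · have h2 : (Finset.univ.filter fun b => i ∉ rich bl ∧ b ∈ hv bl i) ⊆ hv bl i := by
            intro b hb
            simp only [Finset.mem_filter, Finset.mem_univ, true_and] at hb
            exact hb.2
          have h3 : (hv bl i).card < 5 := by
            simpa [rich] using hi
          have := Finset.card_le_card h2
          omega
    _ = 4 * n := by simp [mul_comm]

theorem good_aux {g x y N : ℕ} (h1 : g ≤ x * y) (h2 : 64 * g ≤ N ^ 2) : 16 * g ≤ N * (x + y) := by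
  have h3 : (16 * g) ^ 2 ≤ (N * (x + y)) ^ 2 := by
    calc (16 * g) ^ 2 = 4 * ((64 * g) * g) := by ring
      _ ≤ 4 * (N ^ 2 * (x * y)) := Nat.mul_le_mul_left _ (Nat.mul_le_mul h2 h1)
      _ = N ^ 2 * (4 * (x * y)) := by ring
      _ ≤ N ^ 2 * (x + y) ^ 2 := by
          apply Nat.mul_le_mul_left
          zify
          nlinarith [sq_nonneg ((x : ℤ) - y)]
      _ = (N * (x + y)) ^ 2 := by ring
  exact (Nat.pow_le_pow_iff_left (by norm_num)).1 h3

/-- many rich rows or many rich columns -/
theorem rich_or (hn : 32 < n) (hb : ∀ b, 64 * (Finset.univ.filter fun v : Fin n × Fin n => bl v.1 v.2 = b).card ≤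
    (n + 8) ^ 2) : n ≤ 8 * (rich bl).card ∨ n ≤ 8 * (rich fun i j => bl j i).card := by
  by_contra hcon
  push Not at hcon
  obtain ⟨hR, hC⟩ := hcon
  set bl' : Fin n → Fin n → Fin 64 := fun i j => bl j i with hbl'
  have hcov : (Finset.univ : Finset (Fin n × Fin n)) ⊆
      (((rich bl ×ˢ Finset.univ) ∪ (Finset.univ ×ˢ rich bl')) ∪
      (lightC bl ∪ (lightC bl').image Prod.swap)) ∪
      (Finset.univ : Finset (Fin 64)).biUnion (fun b =>
        (Finset.univ.filter fun v : Fin n × Fin n => bl v.1 v.2 = b) ∩ (poorB bl b ×ˢ poorB bl' b)) := by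
    intro v _
    by_contra hv'
    simp only [Finset.mem_union, Finset.mem_product, Finset.mem_univ, and_true, true_and, Finset.mem_biUnion,
      Finset.mem_inter, Finset.mem_filter, Finset.mem_image] at hv'
    push Not at hv'
    obtain ⟨⟨⟨h1, h2⟩, h3, h4⟩, h5⟩ := hv'
    have h6 : bl v.1 v.2 ∈ hv bl v.1 := by
      simpa [lightC] using h3
    have h7 : bl v.1 v.2 ∈ hv bl' v.2 := by
      by_contra h8
      apply h4 v.swap
      · simpa [lightC, hbl'] using h8
      · simp
    have h8 : v.1 ∈ poorB bl (bl v.1 v.2) := by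
      simp [poorB, h1, h6]
    have h9 : v.2 ∈ poorB bl' (bl v.1 v.2) := by
      simp [poorB, h2, h7]
    exact h5 (bl v.1 v.2) rfl h8 h9
  have h1 := Finset.card_le_card hcov
  rw [Finset.card_univ, Fintype.card_prod, Fintype.card_fin] at h1
  have h2 := h1.trans ((Finset.card_union_le _ _).trans (Nat.add_le_add ((Finset.card_union_le _ _).trans
    (Nat.add_le_add (Finset.card_union_le _ _) (Finset.card_union_le _ _))) le_rfl))
  rw [Finset.card_product, Finset.card_product, Finset.card_univ, Fintype.card_fin] at h2
  have h3 : ((lightC bl').image Prod.swap).card ≤ (lightC bl').card := Finset.card_image_le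
  have h4 := light_card bl
  have h5 := light_card bl'
  set G := (Finset.univ : Finset (Fin 64)).biUnion (fun b =>
        (Finset.univ.filter fun v : Fin n × Fin n => bl v.1 v.2 = b) ∩ (poorB bl b ×ˢ poorB bl' b)) with hG
  have h6 : 16 * G.card ≤ (n + 8) * (8 * n) := by
    calc 16 * G.card ≤ 16 * ∑ b : Fin 64, ((Finset.univ.filter fun v : Fin n × Fin n => bl v.1 v.2 = b) ∩
          (poorB bl b ×ˢ poorB bl' b)).card := Nat.mul_le_mul_left _ Finset.card_biUnion_le
      _ = ∑ b : Fin 64, 16 * ((Finset.univ.filter fun v : Fin n × Fin n => bl v.1 v.2 = b) ∩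
          (poorB bl b ×ˢ poorB bl' b)).card := by rw [Finset.mul_sum]
      _ ≤ ∑ b : Fin 64, (n + 8) * ((poorB bl b).card + (poorB bl' b).card) := by
          apply Finset.sum_le_sum
          intro b _
          apply good_aux
          · rw [← Finset.card_product]
            exact Finset.card_le_card Finset.inter_subset_right
          · exact (Nat.mul_le_mul_left _ (Finset.card_le_card Finset.inter_subset_left)).trans (hb b)
      _ = (n + 8) * (∑ b : Fin 64, (poorB bl b).card + ∑ b : Fin 64, (poorB bl' b).card) := by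
          rw [← Finset.mul_sum, Finset.sum_add_distrib]
      _ ≤ (n + 8) * (4 * n + 4 * n) := Nat.mul_le_mul_left _ (Nat.add_le_add (poor_sum bl) (poor_sum bl'))
      _ = (n + 8) * (8 * n) := by ring
  have h7 : 8 * ((rich bl).card * n) ≤ n * n := by
    calc 8 * ((rich bl).card * n) = (8 * (rich bl).card) * n := by ring
      _ ≤ n * n := Nat.mul_le_mul_right _ hR.le
  have h8 : 8 * (n * (rich bl').card) ≤ n * n := by
    calc 8 * (n * (rich bl').card) = (8 * (rich bl').card) * n := by ring
      _ ≤ n * n := Nat.mul_le_mul_right _ hC.le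
  have h9 : 16 * (n * n) ≤ 14 * (n * n) + 64 * n := by
    have : (n + 8) * (8 * n) = 8 * (n * n) + 64 * n := by ring
    omega
  nlinarith

end blocks

/-- the block of a position -/
def blk (n x : ℕ) : ℕ := 64 * x / n ^ 2

theorem blk_lt {n x : ℕ} (h : x < n ^ 2) : blk n x < 64 := by
  unfold blk
  rw [Nat.div_lt_iff_lt_mul (by omega)]
  omega

theorem lt_of_blk {n x y : ℕ} (h : blk n x < blk n y) : x < y := by
  by_contra hcon
  have := Nat.div_le_div_right (c := n ^ 2) (Nat.mul_le_mul_left 64 (not_lt.1 hcon))
  unfold blk at h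
  omega

theorem blk_card {n : ℕ} {p : Fin n × Fin n → ℕ} (hp : Function.Injective p) (hlt : ∀ v, p v < n ^ 2)
    (b : ℕ) : 64 * (Finset.univ.filter fun v : Fin n × Fin n => blk n (p v) = b).card ≤ (n + 8) ^ 2 := by
  rcases Nat.eq_zero_or_pos n with rfl | hn
  · simp
  have hn2 : 0 < n ^ 2 := by positivity
  have h1 : (Finset.univ.filter fun v : Fin n × Fin n => blk n (p v) = b).card ≤
      (Finset.Ico ((b * n ^ 2 + 63) / 64) ((b * n ^ 2 + 63) / 64 + (n ^ 2 / 64 + 1))).card := by
    apply Finset.card_le_card_of_injOn p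
    · intro v hv'
      have hv2 : blk n (p v) = b := (Finset.mem_filter.1 (Finset.mem_coe.1 hv')).2
      have h2 : b * n ^ 2 ≤ 64 * p v := by
        rw [← hv2]
        exact Nat.div_mul_le_self _ _
      have h3 : 64 * p v < b * n ^ 2 + n ^ 2 := by
        rw [← hv2]
        exact Nat.lt_div_mul_add hn2
      rw [Finset.mem_coe, Finset.mem_Ico]
      generalize b * n ^ 2 = t at h2 h3 ⊢
      generalize n ^ 2 = w at h3 ⊢
      omega
    · exact hp.injOn
  rw [Nat.card_Ico, Nat.add_sub_cancel_left] at h1
  have h2 := Nat.mul_div_le (n ^ 2) 64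
  have h3 : (n + 8) ^ 2 = n ^ 2 + 16 * n + 64 := by ring
  omega

end Pool.Agent.Helper8.BT
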