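import Mathlib
import Pool.Agent.Helper8.BT.Grid

set_option autoImplicit false

/-!
Large twists in every spine order of the rook graph.
-/

namespace Pool.Agent.Helper8.BT

open Classical

/-- two edges, given with increasing ends, cross -/
def Crs {V : Type} (p : V → ℕ) (y z : V × V) : Prop :=
  (p y.1 < p z.1 ∧ p z.1 < p y.2 ∧ p y.2 < p z.2) ∨ (p z.1 < p y.1 ∧ p y.1 < p z.2 ∧ p z.2 < p y.2)

theorem pigeon {ι β : Type} [Fintype β] (s : Finset ι) (g : ι → β) (q : ℕ)
    (h : ∀ f : β, (s.filter fun i => g i = f).card ≤ q) : s.card ≤ q * Fintype.card β := by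
  rw [← Finset.card_univ]
  exact Finset.card_le_mul_card_image_of_maps_to (fun _ _ => Finset.mem_univ _) q (fun f _ => h f)

theorem rows_twist {n k L : ℕ} (hk : 16 ≤ k) (hn : k ^ 15 ≤ n) (hL : 2 ^ 38 * L ≤ k ^ 16) (hL2 : k ^ 4 ≤ L)
    (p : Fin n × Fin n → ℕ) (hp : Function.Injective p) (hlt : ∀ v, p v < n ^ 2)
    (hrich : n ≤ 8 * (rich fun i j => (⟨blk n (p (i, j)), blk_lt (hlt (i, j))⟩ : Fin 64)).card) :
    ∃ Y : Finset ((Fin n × Fin n) × (Fin n × Fin n)), (∀ y ∈ Y, y.1.1 = y.2.1 ∧ p y.1 < p y.2) ∧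
      (∀ y ∈ Y, ∀ z ∈ Y, y ≠ z → Crs p y z) ∧ L ≤ Y.card := by
  by_contra hno
  push Not at hno
  set bl : Fin n → Fin n → Fin 64 := fun i j => ⟨blk n (p (i, j)), blk_lt (hlt (i, j))⟩ with hbl
  have hn0 : 0 < n := lt_of_lt_of_le (by positivity) hn
  -- five heavy blocks
  have hf : ∀ i : Fin n, ∃ f : Fin 5 → Fin 64, i ∈ rich bl → (StrictMono f ∧ ∀ s, f s ∈ hv bl i) := by
    intro i
    by_cases hi : i ∈ rich bl
    · have h5 : 5 ≤ (hv bl i).card := by simpa [rich] using hi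
      exact ⟨(hv bl i).orderEmbOfCardLe h5, fun _ => ⟨OrderEmbedding.strictMono _, fun s =>
        Finset.orderEmbOfCardLe_mem _ _ _⟩⟩
    · exact ⟨fun _ => 0, fun h => absurd h hi⟩
  choose g hg using hf
  -- pigeonhole
  obtain ⟨f, hfN⟩ : ∃ f : Fin 5 → Fin 64, n ≤ 2 ^ 33 * ((rich bl).filter fun i => g i = f).card := by
    by_contra hcon
    push Not at hcon
    obtain ⟨q, hq⟩ : ∃ q, q = (n - 1) / 8589934592 := ⟨_, rfl⟩
    have hfib : ∀ f : Fin 5 → Fin 64, ((rich bl).filter fun i => g i = f).card ≤ q := by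
      intro f
      have h0 := hcon f
      generalize ((rich bl).filter fun i => g i = f).card = c at h0 ⊢
      omega
    have hT : Fintype.card (Fin 5 → Fin 64) = 1073741824 := by
      rw [Fintype.card_fun, Fintype.card_fin, Fintype.card_fin]
      norm_num
    have h1 := pigeon (rich bl) g q (fun f => by convert hfib f)
    rw [hT] at h1
    generalize (rich bl).card = c at h1 hrich
    omega
  let A := {i : Fin n // i ∈ (rich bl).filter fun i => g i = f}
  have hA : n ≤ 2 ^ 33 * Fintype.card A := by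
    rw [Fintype.card_coe]; exact hfN
  have hmem : ∀ a : A, StrictMono f ∧ ∀ s, f s ∈ hv bl a.1 := by
    intro a
    have h1 := Finset.mem_filter.1 a.2
    have h2 := hg a.1 h1.1
    rw [h1.2] at h2
    exact h2
  -- position sets
  let S : Fin 5 → A → Finset ℕ := fun s a => (Finset.univ.filter fun j => bl a.1 j = f s).image fun j => p (a.1, j)
  have hS : ∀ s (a : A) x, x ∈ S s a → ∃ j, p (a.1, j) = x ∧ bl a.1 j = f s := by
    intro s a x hx
    rw [Finset.mem_image] at hx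
    obtain ⟨j, hj, rfl⟩ := hx
    exact ⟨j, rfl, (Finset.mem_filter.1 hj).2⟩
  have hm : ∀ s a, n / 1024 ≤ (S s a).card := by
    intro s a
    have h1 : (S s a).card = rc bl a.1 (f s) := by
      rw [rc]
      apply Finset.card_image_of_injective
      intro j j' h
      exact (Prod.ext_iff.1 (hp h)).2
    have h2 := (hmem a).2 s
    rw [hv, Finset.mem_filter] at h2
    omega
  have hP : ∀ s a, ∀ x ∈ S s a, x < n ^ 2 := by
    intro s a x hx
    obtain ⟨j, rfl, -⟩ := hS s a x hx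
    exact hlt _
  have hdisj : ∀ s a b, ∀ x, x ∈ S s a → x ∈ S s b → a = b := by
    intro s a b x h1 h2
    obtain ⟨j, hj, -⟩ := hS s a x h1
    obtain ⟨j', hj', -⟩ := hS s b x h2
    exact Subtype.ext (Prod.ext_iff.1 (hp (hj.trans hj'.symm))).1
  -- chains are twists
  have hch : ∀ s t, s < t → ∀ X, Chn S s t X → X.card < L := by
    intro s t hst X hX
    have hinv : ∀ z : ℕ × ℕ, ∃ w : (Fin n × Fin n) × (Fin n × Fin n), z ∈ X →
        (w.1.1 = w.2.1 ∧ p w.1 = z.1 ∧ p w.2 = z.2 ∧ blk n (p w.1) = f s ∧ blk n (p w.2) = f t) := by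
      intro z
      by_cases hz : z ∈ X
      · obtain ⟨a, h1, h2⟩ := hX.1 z hz
        obtain ⟨j, hj, hjb⟩ := hS s a _ h1
        obtain ⟨j', hj', hjb'⟩ := hS t a _ h2
        refine ⟨((a.1, j), (a.1, j')), fun _ => ⟨rfl, hj, hj', ?_, ?_⟩⟩
        · rw [← hjb]
        · rw [← hjb']
      · exact ⟨((⟨0, hn0⟩, ⟨0, hn0⟩), (⟨0, hn0⟩, ⟨0, hn0⟩)), fun h => absurd h hz⟩
    choose w hw using hinv
    have hwinj : Set.InjOn w (X : Set (ℕ × ℕ)) := by
      intro z hz z' hz' h
      have h1 := hw z hz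
      have h2 := hw z' hz'
      rw [h] at h1
      exact Prod.ext (h1.2.1.symm.trans h2.2.1) (h1.2.2.1.symm.trans h2.2.2.1)
    rw [← Finset.card_image_of_injOn hwinj]
    have hmono : ∀ a : A, f s < f t := fun a => (hmem a).1 hst
    have hcr : ∀ z ∈ X, ∀ z' ∈ X, p (w z).1 < p (w z').2 := by
      intro z hz z' hz'
      obtain ⟨a, -, -⟩ := hX.1 z hz
      apply lt_of_blk (n := n)
      rw [(hw z hz).2.2.2.1, (hw z' hz').2.2.2.2]
      exact hmono a
    apply hno
    · intro y hy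
      rw [Finset.mem_image] at hy
      obtain ⟨z, hz, rfl⟩ := hy
      exact ⟨(hw z hz).1, hcr z hz z hz⟩
    · intro y hy y' hy' hne
      rw [Finset.mem_image] at hy hy'
      obtain ⟨z, hz, rfl⟩ := hy
      obtain ⟨z', hz', rfl⟩ := hy'
      have hne' : z ≠ z' := by rintro rfl; exact hne rfl
      rcases hX.2 z hz z' hz' hne' with h1 | h1
      · left
        refine ⟨?_, hcr z' hz' z hz, ?_⟩
        · rw [(hw z hz).2.1, (hw z' hz').2.1]; exact h1.1
        · rw [(hw z hz).2.2.1, (hw z' hz').2.2.1]; exact h1.2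
      · right
        refine ⟨?_, hcr z hz z' hz', ?_⟩
        · rw [(hw z hz).2.1, (hw z' hz').2.1]; exact h1.1
        · rw [(hw z hz).2.2.1, (hw z' hz').2.2.1]; exact h1.2
  have hLX : ∀ s t, s ≠ t → ∀ X, Chn S s t X → X.card < L := by
    intro s t hst X hX
    rcases lt_or_gt_of_ne hst with h | h
    · exact hch s t h X hX
    · have h1 := hch t s h _ hX.swap
      rwa [Finset.card_image_of_injective _ Prod.swap_injective] at h1
  exact no_WSys hk hn hA (by omega) hL hL2 (build S hm hP hdisj hLX)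

/-- every spine order of the rook graph has a large twist inside the rows or inside the columns -/
theorem grid_twist {n k L : ℕ} (hk : 16 ≤ k) (hn : k ^ 15 ≤ n) (hL : 2 ^ 38 * L ≤ k ^ 16) (hL2 : k ^ 4 ≤ L)
    (p : Fin n × Fin n → ℕ) (hp : Function.Injective p) (hlt : ∀ v, p v < n ^ 2) :
    ∃ Y : Finset ((Fin n × Fin n) × (Fin n × Fin n)),
      (∀ y ∈ Y, (y.1.1 = y.2.1 ∨ y.1.2 = y.2.2) ∧ p y.1 < p y.2) ∧
      (∀ y ∈ Y, ∀ z ∈ Y, y ≠ z → Crs p y z) ∧ L ≤ Y.card := by
  have hn32 : 32 < n := by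
    have : 16 ^ 15 ≤ k ^ 15 := Nat.pow_le_pow_left hk 15
    omega
  have hb : ∀ b : Fin 64, 64 * (Finset.univ.filter fun v : Fin n × Fin n =>
      (⟨blk n (p (v.1, v.2)), blk_lt (hlt (v.1, v.2))⟩ : Fin 64) = b).card ≤ (n + 8) ^ 2 := by
    intro b
    have := blk_card hp hlt b
    refine le_trans (Nat.mul_le_mul_left _ (Finset.card_le_card ?_)) this
    intro v hv'
    rw [Finset.mem_filter] at hv' ⊢
    exact ⟨hv'.1, by rw [← hv'.2]⟩
  rcases rich_or (fun i j => (⟨blk n (p (i, j)), blk_lt (hlt (i, j))⟩ : Fin 64)) hn32 hb with h | h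
  · obtain ⟨Y, h1, h2, h3⟩ := rows_twist hk hn hL hL2 p hp hlt h
    exact ⟨Y, fun y hy => ⟨Or.inl (h1 y hy).1, (h1 y hy).2⟩, h2, h3⟩
  · obtain ⟨Y, h1, h2, h3⟩ := rows_twist hk hn hL hL2 (fun v => p v.swap) (hp.comp Prod.swap_injective)
      (fun v => hlt _) h
    refine ⟨Y.image (fun y => (y.1.swap, y.2.swap)), ?_, ?_, ?_⟩
    · intro y hy
      rw [Finset.mem_image] at hy
      obtain ⟨z, hz, rfl⟩ := hy
      exact ⟨Or.inr (h1 z hz).1, (h1 z hz).2⟩
    · intro y hy y' hy' hne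
      rw [Finset.mem_image] at hy hy'
      obtain ⟨z, hz, rfl⟩ := hy
      obtain ⟨z', hz', rfl⟩ := hy'
      exact h2 z hz z' hz' (by rintro rfl; exact hne rfl)
    · rw [Finset.card_image_of_injective]
      · exact h3
      · intro y z h
        simp only [Prod.mk.injEq, Prod.swap_inj] at h
        exact Prod.ext h.1 h.2

end Pool.Agent.Helper8.BT
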